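import Pool.Agent.Q261.AS.Mass

set_option autoImplicit false

/-!
# Asymptotic sets of the Gauss map
-/

namespace Q261.Asy

open Set Filter Topology MeasureTheory Q261.CFD
open scoped ENNReal NNReal

/-- the asymptotic set of `x` under the Gauss map (`gauss x = Int.fract x⁻¹`) -/
def AS (x : ℝ) : Set ℝ :=
  {y | y ∈ Ico (0 : ℝ) 1 ∧ Tendsto (fun n : ℕ => |gauss^[n] x - gauss^[n] y|) atTop (𝓝 0)}

/-- the digits as natural numbers -/
noncomputable def dig (x : ℝ) (n : ℕ) : ℕ := (digit x n).toNat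

lemma gauss_zero : gauss 0 = 0 := by simp [gauss]

lemma gauss_mem_Ico (x : ℝ) : gauss x ∈ Ico (0 : ℝ) 1 := ⟨Int.fract_nonneg _, Int.fract_lt_one _⟩

lemma iter_mem_Ico {x : ℝ} (h : x ∈ Ico (0 : ℝ) 1) (n : ℕ) : gauss^[n] x ∈ Ico (0 : ℝ) 1 := by
  cases n with
  | zero => exact h
  | succ n => rw [Function.iterate_succ_apply']; exact gauss_mem_Ico _

lemma iter_eq_zero {x : ℝ} (h : x ∈ Ico (0 : ℝ) 1) (hx : ¬ Irrational x) :
    ∃ N, ∀ n ≥ N, gauss^[n] x = 0 := by
  have h1 : ∃ n, gauss^[n] x ∉ Ioo (0 : ℝ) 1 := by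
    by_contra! hcon
    exact hx (irrational_of_iter hcon)
  obtain ⟨N, hN⟩ := h1
  have h2 : gauss^[N] x = 0 := by
    have h3 := iter_mem_Ico h N
    by_contra h4
    exact hN ⟨lt_of_le_of_ne h3.1 (Ne.symm h4), h3.2⟩
  refine ⟨N, fun n hn => ?_⟩
  obtain ⟨k, rfl⟩ := Nat.exists_eq_add_of_le hn
  induction k with
  | zero => exact h2
  | succ k ih => rw [← add_assoc, Function.iterate_succ_apply', ih (by omega), gauss_zero]

lemma eq_branch' {x : ℝ} (h : x ∈ Ioo (0 : ℝ) 1) :
    1 ≤ dig x 0 ∧ x = ((dig x 0 : ℝ) + gauss x)⁻¹ := by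
  obtain ⟨a, ha, h1, h2⟩ := eq_branch h
  have : dig x 0 = a := by rw [dig, h1]; rfl
  rw [this]
  exact ⟨ha, h2⟩

lemma dig_iter (x : ℝ) (m n : ℕ) : dig (gauss^[m] x) n = dig x (m + n) := by
  unfold dig digit
  rw [← Function.iterate_add_apply, add_comm n m]

lemma iter_branch {x : ℝ} (hx : Irrational x) (h : x ∈ Ioo (0 : ℝ) 1) (n : ℕ) :
    1 ≤ dig x n ∧ gauss^[n] x = ((dig x n : ℝ) + gauss^[n + 1] x)⁻¹ := by
  have h1 := eq_branch' (iter_mem hx h n)
  rw [dig_iter, add_zero] at h1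
  rw [Function.iterate_succ_apply']
  exact h1

/-- the list of the first digits -/
noncomputable def pre (x : ℝ) : ℕ → List ℕ
  | 0 => []
  | n + 1 => dig x 0 :: pre (gauss x) n

lemma pre_length (x : ℝ) (n : ℕ) : (pre x n).length = n := by
  induction n generalizing x with
  | zero => rfl
  | succ n ih => rw [pre, List.length_cons, ih]

lemma pre_getElem (x : ℝ) (n i : ℕ) (hi : i < (pre x n).length) : (pre x n)[i] = dig x i := by
  induction n generalizing x i with
  | zero => simp [pre] at hi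
  | succ n ih =>
    cases i with
    | zero => rfl
    | succ i =>
      simp only [pre, List.getElem_cons_succ]
      rw [ih]
      have := dig_iter x 1 i
      rw [Function.iterate_one, add_comm 1 i] at this
      exact this

lemma pre_pos {x : ℝ} (hx : Irrational x) (h : x ∈ Ioo (0 : ℝ) 1) (n : ℕ) : Pos (pre x n) := by
  intro a ha
  obtain ⟨i, hi, rfl⟩ := List.mem_iff_getElem.1 ha
  rw [pre_getElem]
  exact (iter_branch hx h i).1

lemma eq_phi_pre {x : ℝ} (hx : Irrational x) (h : x ∈ Ioo (0 : ℝ) 1) (n : ℕ) :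
    x = phi (pre x n) (gauss^[n] x) := by
  induction n generalizing x with
  | zero => rfl
  | succ n ih =>
    rw [pre, phi_cons, Function.iterate_succ_apply, ← ih (irrational_gauss hx) (gauss_mem hx)]
    exact (eq_branch' h).2

lemma pre_eq {x y : ℝ} (n : ℕ) (h : ∀ i < n, dig x i = dig y i) : pre x n = pre y n := by
  apply List.ext_getElem
  · rw [pre_length, pre_length]
  · intro i h1 h2
    rw [pre_getElem, pre_getElem]
    exact h i (by rwa [pre_length] at h1)

/-- digits of asymptotic points -/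
lemma digits_of_AS {x y : ℝ} (hx : Irrational x) (h : x ∈ Ioo (0 : ℝ) 1) (hy : Irrational y)
    (h' : y ∈ Ioo (0 : ℝ) 1) (ht : Tendsto (fun n : ℕ => |gauss^[n] x - gauss^[n] y|) atTop (𝓝 0))
    (M : ℕ) : ∃ N, ∀ n ≥ N, dig x n = dig y n ∨ (M < dig x n ∧ M < dig y n) := by
  set ε : ℝ := 1 / (2 * (((M : ℝ) + 1) * (M + 2) + 1)) with hε
  have hε0 : 0 < ε := by positivity
  have hM0 : (0 : ℝ) ≤ M := Nat.cast_nonneg _
  -- one-sided statement
  have key : ∀ u v u' v' : ℝ, ∀ a b : ℕ, 0 ≤ u' → u' < 1 → 0 ≤ v' → v' < 1 → 1 ≤ a → 1 ≤ b →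
      u = ((a : ℝ) + u')⁻¹ → v = ((b : ℝ) + v')⁻¹ → |u - v| < ε → |u' - v'| < ε → a ≤ M →
      a = b := by
    intro u v u' v' a b hu0 hu1 hv0 hv1 ha hb hu hv h1 h2 haM
    have ha' : (1 : ℝ) ≤ a := by exact_mod_cast ha
    have hb' : (1 : ℝ) ≤ b := by exact_mod_cast hb
    have haM' : (a : ℝ) ≤ M := by exact_mod_cast haM
    have hup : 1 / ((M : ℝ) + 1) ≤ u := by
      rw [hu, ← one_div]
      exact one_div_le_one_div_of_le (by linarith) (by linarith)
    have hε1 : ε ≤ 1 / (((M : ℝ) + 1) * (M + 2)) := by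
      rw [hε]
      apply one_div_le_one_div_of_le (by positivity)
      nlinarith
    have hvp : 1 / ((M : ℝ) + 2) ≤ v := by
      have h3 : 1 / ((M : ℝ) + 1) - 1 / (((M : ℝ) + 1) * (M + 2)) = 1 / ((M : ℝ) + 2) := by
        field_simp
        ring
      have h4 := (abs_lt.1 h1).2
      linarith
    have hu0' : 0 < u := lt_of_lt_of_le (by positivity) hup
    have hv0' : 0 < v := lt_of_lt_of_le (by positivity) hvp
    have eu : (a : ℝ) + u' = u⁻¹ := by rw [hu, inv_inv]
    have ev : (b : ℝ) + v' = v⁻¹ := by rw [hv, inv_inv]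
    have h5 : (a : ℝ) - b = (v - u) / (u * v) - (u' - v') := by
      have : u⁻¹ - v⁻¹ = (v - u) / (u * v) := by field_simp
      linarith
    have h6 : |(v - u) / (u * v)| ≤ ε * (((M : ℝ) + 1) * (M + 2)) := by
      rw [abs_div, abs_of_pos (mul_pos hu0' hv0'), div_le_iff₀ (mul_pos hu0' hv0'), abs_sub_comm]
      have h7 : 1 ≤ ((M : ℝ) + 1) * (M + 2) * (u * v) := by
        have h8 : 1 ≤ ((M : ℝ) + 1) * u := by
          rw [div_le_iff₀ (by positivity)] at hup; linarith
        have h9 : 1 ≤ ((M : ℝ) + 2) * v := by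
          rw [div_le_iff₀ (by positivity)] at hvp; linarith
        calc (1 : ℝ) = 1 * 1 := by ring
          _ ≤ (((M : ℝ) + 1) * u) * (((M : ℝ) + 2) * v) := mul_le_mul h8 h9 zero_le_one (by positivity)
          _ = _ := by ring
      calc |u - v| ≤ ε := h1.le
        _ = ε * 1 := by ring
        _ ≤ ε * (((M : ℝ) + 1) * (M + 2) * (u * v)) := mul_le_mul_of_nonneg_left h7 hε0.le
        _ = _ := by ring
    have h7 : |(a : ℝ) - b| < 1 := by
      rw [h5]
      refine lt_of_le_of_lt (abs_sub _ _) ?_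
      have h8 : ε * (((M : ℝ) + 1) * (M + 2)) + ε = 1 / 2 := by
        rw [hε]; field_simp
      linarith
    have h8 : |(a : ℤ) - b| < 1 := by exact_mod_cast h7
    have h9 := Int.abs_lt_one_iff.1 h8
    omega
  obtain ⟨N, hN⟩ := (Metric.tendsto_atTop.1 ht) ε hε0
  refine ⟨N, fun n hn => ?_⟩
  have h1 := hN n hn
  have h2 := hN (n + 1) (by omega)
  rw [Real.dist_eq, sub_zero, abs_abs] at h1 h2
  have bx := iter_branch hx h n
  have bz := iter_branch hy h' n
  have mx := iter_mem hx h (n + 1)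
  have my := iter_mem hy h' (n + 1)
  by_cases hc1 : dig x n ≤ M
  · left
    exact key _ _ _ _ _ _ mx.1.le mx.2 my.1.le my.2 bx.1 bz.1 bx.2 bz.2 h1 h2 hc1
  · by_cases hc2 : dig y n ≤ M
    · left
      rw [abs_sub_comm] at h1 h2
      exact (key _ _ _ _ _ _ my.1.le my.2 mx.1.le mx.2 bz.1 bx.1 bz.2 bx.2 h1 h2 hc2).symm
    · right
      omega

/-- digits of the points asymptotic to a rational point -/
lemma digits_of_AS_rat {x y : ℝ} (h : x ∈ Ico (0 : ℝ) 1) (hx : ¬ Irrational x) (hy : Irrational y)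
    (h' : y ∈ Ioo (0 : ℝ) 1) (ht : Tendsto (fun n : ℕ => |gauss^[n] x - gauss^[n] y|) atTop (𝓝 0))
    (M : ℕ) : ∃ N, ∀ n ≥ N, M < dig y n := by
  obtain ⟨N1, hN1⟩ := iter_eq_zero h hx
  obtain ⟨N, hN⟩ := (Metric.tendsto_atTop.1 ht) (1 / ((M : ℝ) + 1)) (by positivity)
  refine ⟨max N N1, fun n hn => ?_⟩
  have h1 := hN n (le_trans (le_max_left _ _) hn)
  rw [Real.dist_eq, sub_zero, abs_abs, hN1 n (le_trans (le_max_right _ _) hn), zero_sub, abs_neg]
    at h1
  have b := iter_branch hy h' n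
  have m := iter_mem hy h' (n + 1)
  have h2 : gauss^[n] y < 1 / ((M : ℝ) + 1) := lt_of_le_of_lt (le_abs_self _) h1
  rw [b.2, ← one_div] at h2
  have hb : (1 : ℝ) ≤ dig y n := by exact_mod_cast b.1
  have h3 := (one_div_lt_one_div (by linarith [m.1]) (by positivity)).1 h2
  have h4 : (M : ℝ) < dig y n := by linarith [m.2]
  exact_mod_cast h4

/-! ### upper bound -/

lemma D_le_prod {w : List ℕ} (hw : Pos w) {x : ℝ} (hx : 0 ≤ x) :
    D w x ≤ (w.map fun a : ℕ => (a : ℝ)⁻¹).prod := by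
  induction w with
  | nil => simp
  | cons a w ih =>
    have ha : (1 : ℝ) ≤ a := by exact_mod_cast hw.head
    rw [D_cons, List.map_cons, List.prod_cons]
    have h1 := phi_nonneg (w := w) hx
    exact mul_le_mul (inv_anti₀ (by linarith) (by linarith)) (ih hw.tail) (D_pos hw.tail hx).le
      (by positivity)

/-- numbers with restricted digits, level by level -/
theorem dimH_restricted (A : ℕ → Set ℕ) {s : ℝ≥0} (hs : 0 < s)
    (h1 : Tendsto (fun n => ∏ i ∈ Finset.range n, ∑' b : {b : ℕ // b ∈ A i ∧ 1 ≤ b},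
      ENNReal.ofReal (((b : ℕ) : ℝ)⁻¹) ^ (2 * (s : ℝ))) atTop (𝓝 0)) :
    dimH {y : ℝ | y ∈ Ioo (0 : ℝ) 1 ∧ Irrational y ∧ ∀ n, dig y n ∈ A n} ≤ s := by
  classical
  have hs' : (0 : ℝ) < s := by exact_mod_cast hs
  -- index type: lists of digits
  set t : ℕ → List ℕ → Set ℝ := fun n w =>
    if w.length = n ∧ Pos w ∧ ∀ i (hi : i < w.length), w[i] ∈ A i then phi w '' Icc (0 : ℝ) 1 else ∅
    with ht
  refine dimH_le_of_covers hs t ?_ ?_
  · rintro n y ⟨h2, h3, h4⟩
    refine mem_iUnion.2 ⟨pre y n, ?_⟩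
    rw [ht]
    simp only
    rw [if_pos]
    · exact ⟨gauss^[n] y, Ioo_subset_Icc_self (iter_mem h3 h2 n), (eq_phi_pre h3 h2 n).symm⟩
    · refine ⟨pre_length _ _, pre_pos h3 h2 n, fun i hi => ?_⟩
      rw [pre_getElem]
      exact h4 i
  · have hle : ∀ n, ∑' w : List ℕ, Metric.ediam (t n w) ^ (s : ℝ) ≤
        ∏ i ∈ Finset.range n, ∑' b : {b : ℕ // b ∈ A i ∧ 1 ≤ b},
          ENNReal.ofReal (((b : ℕ) : ℝ)⁻¹) ^ (2 * (s : ℝ)) := by
      intro n
      set g : Fin n → ℕ → ℝ≥0∞ := fun i b => if b ∈ A i ∧ 1 ≤ b then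
        ENNReal.ofReal ((b : ℝ)⁻¹) ^ (2 * (s : ℝ)) else 0 with hg
      have e1 : ∀ i : ℕ, ∑' b : {b : ℕ // b ∈ A i ∧ 1 ≤ b},
          ENNReal.ofReal (((b : ℕ) : ℝ)⁻¹) ^ (2 * (s : ℝ)) = ∑' b : ℕ, if b ∈ A i ∧ 1 ≤ b then
        ENNReal.ofReal ((b : ℝ)⁻¹) ^ (2 * (s : ℝ)) else 0 := by
        intro i
        have := tsum_subtype {b : ℕ | b ∈ A i ∧ 1 ≤ b}
          (fun b : ℕ => ENNReal.ofReal ((b : ℝ)⁻¹) ^ (2 * (s : ℝ)))
        refine this.trans (tsum_congr fun b => ?_)
        rw [Set.indicator_apply]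
        rfl
      have e2 : ∏ i ∈ Finset.range n, ∑' b : {b : ℕ // b ∈ A i ∧ 1 ≤ b},
          ENNReal.ofReal (((b : ℕ) : ℝ)⁻¹) ^ (2 * (s : ℝ)) = ∑' f : Fin n → ℕ, ∏ i, g i (f i) := by
        rw [tsum_fin_prod, ← Fin.prod_univ_eq_prod_range]
        exact Finset.prod_congr rfl fun i _ => e1 i
      rw [e2]
      -- only lists of length n count
      have hinj : Function.Injective (fun f : Fin n → ℕ => List.ofFn f) := List.ofFn_injective
      have hsupp : Function.support (fun w : List ℕ => Metric.ediam (t n w) ^ (s : ℝ)) ⊆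
          Set.range (fun f : Fin n → ℕ => List.ofFn f) := by
        intro w hw
        rw [Function.mem_support] at hw
        by_cases hc : w.length = n
        · subst hc
          exact ⟨fun i => w[i], List.ofFn_getElem⟩
        · exfalso
          apply hw
          rw [ht]
          simp only
          rw [if_neg fun h => hc h.1, Metric.ediam_empty, ENNReal.zero_rpow_of_pos hs']
      rw [← hinj.tsum_eq hsupp]
      refine ENNReal.tsum_le_tsum fun f => ?_
      rw [ht]
      simp only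
      split_ifs with hc
      · obtain ⟨-, hp, hA⟩ := hc
        have e3 : ∏ i, g i (f i) = (ENNReal.ofReal (∏ i, ((f i : ℝ)⁻¹) ^ 2)) ^ (s : ℝ) := by
          rw [ENNReal.ofReal_prod_of_nonneg fun i _ => by positivity,
            ← ENNReal.prod_rpow_of_nonneg hs'.le]
          refine Finset.prod_congr rfl fun i _ => ?_
          have h5 : f i ∈ A i := by
            have := hA i (by simp)
            simpa using this
          have h6 : 1 ≤ f i := hp _ (List.mem_ofFn.2 ⟨i, rfl⟩)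
          rw [hg]
          simp only
          rw [if_pos ⟨h5, h6⟩, ENNReal.ofReal_pow (by positivity), ← ENNReal.rpow_natCast,
            ← ENNReal.rpow_mul]
          norm_num
        rw [e3]
        apply ENNReal.rpow_le_rpow _ hs'.le
        apply Metric.ediam_le
        rintro _ ⟨x, hx, rfl⟩ _ ⟨y, hy, rfl⟩
        rw [edist_dist, Real.dist_eq]
        apply ENNReal.ofReal_le_ofReal
        rw [phi_sub hp hx.1 hy.1]
        have h7 := D_le_prod hp hx.1
        have h8 := D_le_prod hp hy.1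
        have h9 : |x - y| ≤ 1 := by
          rw [abs_le]; constructor <;> linarith [hx.1, hx.2, hy.1, hy.2]
        have e4 : ((List.ofFn f).map fun a : ℕ => (a : ℝ)⁻¹).prod = ∏ i, (f i : ℝ)⁻¹ := by
          rw [List.map_ofFn, List.prod_ofFn]
          rfl
        rw [e4] at h7 h8
        have h10 := D_pos hp hx.1
        have h11 := D_pos hp hy.1
        rw [Finset.prod_pow, sq]
        calc |x - y| * (D (List.ofFn f) x * D (List.ofFn f) y) ≤
            1 * (D (List.ofFn f) x * D (List.ofFn f) y) :=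
              mul_le_mul_of_nonneg_right h9 (by positivity)
          _ = D (List.ofFn f) x * D (List.ofFn f) y := one_mul _
          _ ≤ _ := mul_le_mul h7 h8 h11.le (by positivity)
      · rw [Metric.ediam_empty, ENNReal.zero_rpow_of_pos hs']
        exact zero_le
    exact tendsto_of_tendsto_of_tendsto_of_le_of_le tendsto_const_nhds h1 (fun n => zero_le) hle

end Q261.Asy
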