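import Pool.Agent.Q261.AS.Half

set_option autoImplicit false

/-!
# The set of points whose asymptotic set has dimension one half has dimension one
-/

namespace Q261.Asy

open Set Filter Topology MeasureTheory Q261.CFD
open scoped ENNReal NNReal

/-- separation of words of the same length -/
lemma words_sep {m : ℕ} {η : ℝ} (hη : 0 < η) (hη1 : η ≤ 1 / ((m : ℝ) + 1)) :
    ∀ (w w' : List ℕ), w.length = w'.length → w ≠ w' → Pos w → Pos w' → (∀ a ∈ w, a ≤ m) →
    (∀ a ∈ w', a ≤ m) → ∀ z z' : ℝ, z ∈ Icc η 1 → z' ∈ Icc η 1 →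
    η * (1 / ((m : ℝ) + 1) ^ 2) ^ w.length ≤ |phi w z - phi w' z'| := by
  have hm0 : (0 : ℝ) ≤ m := Nat.cast_nonneg m
  have low : ∀ u : List ℕ, Pos u → (∀ a ∈ u, a ≤ m) → ∀ z ∈ Icc η (1 : ℝ), phi u z ∈ Icc η 1 := by
    intro u hu hum z hz
    have hz0 : 0 ≤ z := hη.le.trans hz.1
    refine ⟨?_, phi_le_one hu hz0 hz.2⟩
    cases u with
    | nil => exact hz.1
    | cons a u =>
      have ha : (a : ℝ) ≤ m := by exact_mod_cast hum a List.mem_cons_self
      have ha1 : (1 : ℝ) ≤ a := by exact_mod_cast hu.head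
      have h1 := phi_mem hu.tail ⟨hz0, hz.2⟩
      rw [phi_cons, ← one_div]
      exact hη1.trans (one_div_le_one_div_of_le (by linarith [h1.1]) (by linarith [h1.2]))
  intro w
  induction w with
  | nil =>
    intro w' hl hne
    exfalso
    apply hne
    simp only [List.length_nil] at hl
    exact (List.length_eq_zero_iff.1 hl.symm).symm
  | cons a u ih =>
    intro w' hl hne hw hw' hm hm' z z' hz hz'
    cases w' with
    | nil => simp at hl
    | cons a' u' =>
      have hl' : u.length = u'.length := by simpa using hl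
      have ha : (a : ℝ) ≤ m := by exact_mod_cast hm a List.mem_cons_self
      have ha1 : (1 : ℝ) ≤ a := by exact_mod_cast hw.head
      have ha' : (a' : ℝ) ≤ m := by exact_mod_cast hm' a' List.mem_cons_self
      have ha1' : (1 : ℝ) ≤ a' := by exact_mod_cast hw'.head
      have y1 := low u hw.tail (fun b hb => hm b (List.mem_cons_of_mem _ hb)) z hz
      have y2 := low u' hw'.tail (fun b hb => hm' b (List.mem_cons_of_mem _ hb)) z' hz'
      set y := phi u z with hy
      set y' := phi u' z' with hy'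
      have c1 : 0 < (a : ℝ) + y := by linarith [y1.1]
      have c2 : 0 < (a' : ℝ) + y' := by linarith [y2.1]
      have c3 : (a : ℝ) + y ≤ m + 1 := by linarith [y1.2]
      have c4 : (a' : ℝ) + y' ≤ m + 1 := by linarith [y2.2]
      have c5 : |phi (a :: u) z - phi (a' :: u') z'| =
          |((a' : ℝ) - a) + (y' - y)| / (((a : ℝ) + y) * (a' + y')) := by
        rw [phi_cons, phi_cons, ← hy, ← hy', inv_sub_inv c1.ne' c2.ne', abs_div,
          abs_of_pos (mul_pos c1 c2)]
        congr 2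
        ring
      have c6 : ((a : ℝ) + y) * (a' + y') ≤ ((m : ℝ) + 1) ^ 2 := by
        rw [sq]; exact mul_le_mul c3 c4 c2.le (by linarith)
      rw [c5, List.length_cons, pow_succ, ← mul_assoc, mul_one_div,
        div_le_div_iff₀ (by positivity) (mul_pos c1 c2)]
      have hp1 : (1 / ((m : ℝ) + 1) ^ 2) ^ u.length ≤ 1 := by
        apply pow_le_one₀ (by positivity)
        rw [div_le_one (by positivity)]
        nlinarith
      have hnum : η * (1 / ((m : ℝ) + 1) ^ 2) ^ u.length ≤ |((a' : ℝ) - a) + (y' - y)| := by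
        by_cases haa : a = a'
        · subst haa
          have hne' : u ≠ u' := fun h => hne (by rw [h])
          have := ih u' hl' hne' hw.tail hw'.tail (fun b hb => hm b (List.mem_cons_of_mem _ hb))
            (fun b hb => hm' b (List.mem_cons_of_mem _ hb)) z z' hz hz'
          rw [sub_self, zero_add, abs_sub_comm]
          exact this
        · have h1 : (1 : ℝ) ≤ |(a' : ℝ) - a| := by
            have : (1 : ℤ) ≤ |(a' : ℤ) - a| := by
              apply Int.one_le_abs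
              omega
            exact_mod_cast this
          have h2 : |y' - y| ≤ 1 - η := by
            rw [abs_le]; constructor <;> linarith [y1.1, y1.2, y2.1, y2.2]
          have h3 : |(a' : ℝ) - a| - |y' - y| ≤ |((a' : ℝ) - a) + (y' - y)| := by
            have := abs_sub_abs_le_abs_sub ((a' : ℝ) - a) (-(y' - y))
            rwa [abs_neg, sub_neg_eq_add] at this
          have h4 : η * (1 / ((m : ℝ) + 1) ^ 2) ^ u.length ≤ η := by
            calc _ ≤ η * 1 := mul_le_mul_of_nonneg_left hp1 hη.le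
              _ = η := mul_one _
          linarith
      calc η * (1 / ((m : ℝ) + 1) ^ 2) ^ u.length * (((a : ℝ) + y) * (a' + y')) ≤
          |((a' : ℝ) - a) + (y' - y)| * (((a : ℝ) + y) * (a' + y')) :=
            mul_le_mul_of_nonneg_right hnum (mul_pos c1 c2).le
        _ ≤ _ := mul_le_mul_of_nonneg_left c6 (abs_nonneg _)

/-- the word of a function -/
def wd {B L : ℕ} (f : Fin L → Fin B) : List ℕ := List.ofFn fun i => (f i : ℕ) + 1

lemma wd_length {B L : ℕ} (f : Fin L → Fin B) : (wd f).length = L := by simp [wd]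

lemma wd_pos {B L : ℕ} (f : Fin L → Fin B) : Pos (wd f) := by
  intro a ha
  obtain ⟨i, rfl⟩ := List.mem_ofFn.1 ha
  omega

lemma wd_le {B L : ℕ} (f : Fin L → Fin B) : ∀ a ∈ wd f, a ≤ B := by
  intro a ha
  obtain ⟨i, rfl⟩ := List.mem_ofFn.1 ha
  have := (f i).2
  omega

lemma wd_inj {B L : ℕ} {f g : Fin L → Fin B} (h : wd f = wd g) : f = g := by
  have h1 := List.ofFn_injective h
  funext i
  have := congrFun h1 i
  apply Fin.ext
  omega

/-- the partition function at the exponent one -/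
lemma sum_D_sq (B L : ℕ) : ((B : ℝ) / (B + 2)) ^ L ≤ ∑ f : Fin L → Fin B, D (wd f) 0 ^ 2 := by
  have hB0 : (0 : ℝ) ≤ B := Nat.cast_nonneg B
  have key : ∀ L, ((B : ℝ) / (B + 2)) ^ L ≤
      ∑ f : Fin L → Fin B, D (wd f) 0 ^ 2 * (1 + phi (wd f) 0)⁻¹ := by
    intro L
    induction L with
    | zero => simp [wd]
    | succ L ih =>
      have e1 : ∑ f : Fin (L + 1) → Fin B, D (wd f) 0 ^ 2 * (1 + phi (wd f) 0)⁻¹ =
          ∑ f : Fin L → Fin B, ∑ b : Fin B, D (((b : ℕ) + 1) :: wd f) 0 ^ 2 *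
            (1 + phi (((b : ℕ) + 1) :: wd f) 0)⁻¹ := by
        rw [← (Fin.consEquiv (fun _ : Fin (L + 1) => Fin B)).sum_comp, Fintype.sum_prod_type,
          Finset.sum_comm]
        refine Finset.sum_congr rfl fun f _ => Finset.sum_congr rfl fun b _ => ?_
        have : wd ((Fin.consEquiv fun _ : Fin (L + 1) => Fin B) (b, f)) = ((b : ℕ) + 1) :: wd f := by
          simp [wd, Fin.consEquiv, List.ofFn_succ]
        rw [this]
      rw [e1]
      have e2 : ∀ f : Fin L → Fin B, ((B : ℝ) / (B + 2)) * (D (wd f) 0 ^ 2 * (1 + phi (wd f) 0)⁻¹) ≤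
          ∑ b : Fin B, D (((b : ℕ) + 1) :: wd f) 0 ^ 2 * (1 + phi (((b : ℕ) + 1) :: wd f) 0)⁻¹ := by
        intro f
        have hy := phi_mem (wd_pos f) (x := 0) ⟨le_rfl, zero_le_one⟩
        set y := phi (wd f) 0 with hydef
        have e3 : ∀ b : ℕ, D ((b + 1) :: wd f) 0 ^ 2 * (1 + phi ((b + 1) :: wd f) 0)⁻¹ =
            D (wd f) 0 ^ 2 * (((b : ℝ) + 1 + y)⁻¹ - ((b + 1 : ℕ) + 1 + y)⁻¹) := by
          intro b
          have hb : (0 : ℝ) ≤ b := Nat.cast_nonneg b
          rw [D_cons, phi_cons, ← hydef]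
          have key2 : ∀ X : ℝ, 0 < X → (X⁻¹) ^ 2 * (1 + X⁻¹)⁻¹ = X⁻¹ - (X + 1)⁻¹ := by
            intro X hX
            have h1 : X ≠ 0 := hX.ne'
            have h2 : X + 1 ≠ 0 := by linarith
            have h3 : 1 + X⁻¹ = (X + 1) / X := by field_simp
            rw [h3, inv_div]
            field_simp
            ring
          have h4 := key2 ((b : ℝ) + 1 + y) (by linarith [hy.1])
          push_cast
          rw [mul_pow, show ((b : ℝ) + 1 + 1 + y) = (b + 1 + y) + 1 by ring, ← h4]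
          ring
        simp_rw [e3]
        rw [← Finset.mul_sum, Fin.sum_univ_eq_sum_range (fun b : ℕ =>
          (((b : ℝ) + 1 + y)⁻¹ - ((b + 1 : ℕ) + 1 + y)⁻¹)), Finset.sum_range_sub'
          (fun b : ℕ => ((b : ℝ) + 1 + y)⁻¹)]
        rw [mul_left_comm]
        apply mul_le_mul_of_nonneg_left _ (sq_nonneg _)
        push_cast
        have h1 : (0 : ℝ) < 1 + y := by linarith [hy.1]
        have h2 : (0 : ℝ) < B + 1 + y := by linarith [hy.1]
        rw [zero_add, ← div_eq_mul_inv, div_div, inv_sub_inv h1.ne' h2.ne',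
          div_le_div_iff₀ (by positivity) (by positivity)]
        have h3 : (B : ℝ) * ((1 + y) * (B + 1 + y)) ≤ B * ((B + 2) * (1 + y)) := by
          apply mul_le_mul_of_nonneg_left _ hB0
          nlinarith [hy.2]
        linarith
      calc ((B : ℝ) / (B + 2)) ^ (L + 1) = ((B : ℝ) / (B + 2)) * ((B : ℝ) / (B + 2)) ^ L := by
            rw [pow_succ]; ring
        _ ≤ ((B : ℝ) / (B + 2)) * ∑ f : Fin L → Fin B, D (wd f) 0 ^ 2 * (1 + phi (wd f) 0)⁻¹ :=
            mul_le_mul_of_nonneg_left ih (by positivity)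
        _ ≤ _ := by
            rw [Finset.mul_sum]
            exact Finset.sum_le_sum fun f _ => e2 f
  refine (key L).trans (Finset.sum_le_sum fun f _ => ?_)
  have h1 := phi_nonneg (w := wd f) (le_refl (0 : ℝ))
  calc D (wd f) 0 ^ 2 * (1 + phi (wd f) 0)⁻¹ ≤ D (wd f) 0 ^ 2 * 1 :=
        mul_le_mul_of_nonneg_left (inv_le_one_of_one_le₀ (by linarith)) (sq_nonneg _)
    _ = _ := mul_one _

/-- the partition function at the exponent `s < 1` -/
lemma sum_D_rpow (B k : ℕ) {s : ℝ} (hs1 : s ≤ 1) :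
    ((B : ℝ) / (B + 2)) / 4 * ((B : ℝ) / (B + 2) * 2 ^ (1 - s)) ^ k ≤
      ∑ f : Fin (k + 1) → Fin B, (D (wd f) 0 / 2) ^ (2 * s) := by
  have hB0 : (0 : ℝ) ≤ B := Nat.cast_nonneg B
  have h1 : ∀ f : Fin (k + 1) → Fin B, (1 / 4) * (2 ^ (1 - s)) ^ k * D (wd f) 0 ^ 2 ≤
      (D (wd f) 0 / 2) ^ (2 * s) := by
    intro f
    have hd := D_pos (wd_pos f) (le_refl (0 : ℝ))
    have hd2 := D_le_half (wd_pos f) (le_refl (0 : ℝ))
    rw [wd_length] at hd2
    set d := D (wd f) 0
    have e1 : (d / 2) ^ (2 * s) = d ^ (2 * s) / 2 ^ (2 * s) := Real.div_rpow hd.le two_pos.le _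
    have e2 : (2 : ℝ) ^ (2 * s) ≤ 4 := by
      calc (2 : ℝ) ^ (2 * s) ≤ 2 ^ (2 : ℝ) := Real.rpow_le_rpow_of_exponent_le (by norm_num) (by linarith)
        _ = 4 := by norm_num
    have e3 : d ^ (2 * s) = d ^ 2 * (d⁻¹) ^ (2 * (1 - s)) := by
      rw [Real.inv_rpow hd.le, ← Real.rpow_neg hd.le, ← Real.rpow_two, ← Real.rpow_add hd]
      congr 1
      ring
    have e4 : ((2 : ℝ) ^ (1 - s)) ^ k ≤ (d⁻¹) ^ (2 * (1 - s)) := by
      have h5 : (2 : ℝ) ^ ((k : ℝ) / 2) ≤ d⁻¹ := by
        have h6 : (2 : ℝ) ^ ((k + 1) / 2) ≤ d⁻¹ := by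
          rw [le_inv_comm₀ (by positivity) hd]
          refine hd2.trans (le_of_eq ?_)
          rw [one_div, inv_pow]
        refine le_trans ?_ h6
        rw [← Real.rpow_natCast]
        apply Real.rpow_le_rpow_of_exponent_le (by norm_num)
        have h7 : k ≤ 2 * ((k + 1) / 2) := by omega
        have h8 : (k : ℝ) ≤ 2 * (((k + 1) / 2 : ℕ) : ℝ) := by exact_mod_cast h7
        linarith
      calc ((2 : ℝ) ^ (1 - s)) ^ k = ((2 : ℝ) ^ ((k : ℝ) / 2)) ^ (2 * (1 - s)) := by
            rw [← Real.rpow_natCast, ← Real.rpow_mul two_pos.le, ← Real.rpow_mul two_pos.le]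
            congr 1
            ring
        _ ≤ _ := Real.rpow_le_rpow (by positivity) h5 (by linarith)
    rw [e1, e3]
    have e5 : (0 : ℝ) < 2 ^ (2 * s) := Real.rpow_pos_of_pos two_pos _
    have e6 : 0 ≤ ((2 : ℝ) ^ (1 - s)) ^ k := by positivity
    rw [le_div_iff₀ e5]
    calc 1 / 4 * (2 ^ (1 - s)) ^ k * d ^ 2 * 2 ^ (2 * s) ≤ 1 / 4 * (2 ^ (1 - s)) ^ k * d ^ 2 * 4 :=
          mul_le_mul_of_nonneg_left e2 (by positivity)
      _ = d ^ 2 * (2 ^ (1 - s)) ^ k := by ring
      _ ≤ _ := mul_le_mul_of_nonneg_left e4 (sq_nonneg _)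
  calc ((B : ℝ) / (B + 2)) / 4 * ((B : ℝ) / (B + 2) * 2 ^ (1 - s)) ^ k =
      (1 / 4) * (2 ^ (1 - s)) ^ k * ((B : ℝ) / (B + 2)) ^ (k + 1) := by
        rw [mul_pow, pow_succ]; ring
    _ ≤ (1 / 4) * (2 ^ (1 - s)) ^ k * ∑ f : Fin (k + 1) → Fin B, D (wd f) 0 ^ 2 :=
        mul_le_mul_of_nonneg_left (sum_D_sq B (k + 1)) (by positivity)
    _ ≤ _ := by
        rw [Finset.mul_sum]
        exact Finset.sum_le_sum fun f _ => h1 f

end Q261.Asy
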