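import Pool.Agent.Q261.AS.Big

set_option autoImplicit false

/-!
# The dimension of `XS B` tends to one
-/

namespace Q261.Asy

open Set Filter Topology MeasureTheory Q261.CFD
open scoped ENNReal NNReal

/-- the words, indexed by natural numbers -/
noncomputable def W (B k v : ℕ) : List ℕ :=
  if h : v < B ^ (k + 1) then wd (finFunctionFinEquiv.symm ⟨v, h⟩) else List.replicate (k + 1) 1

lemma W_length (B k v : ℕ) : (W B k v).length = k + 1 := by
  unfold W
  split_ifs
  · exact wd_length _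
  · simp

lemma W_pos (B k v : ℕ) : Pos (W B k v) := by
  unfold W
  split_ifs
  · exact wd_pos _
  · intro a ha
    rw [List.eq_of_mem_replicate ha]

lemma W_le {B : ℕ} (hB : 1 ≤ B) (k v : ℕ) : ∀ a ∈ W B k v, a ≤ B := by
  unfold W
  split_ifs
  · exact wd_le _
  · intro a ha
    rw [List.eq_of_mem_replicate ha]; exact hB

lemma W_inj {B k : ℕ} {v v' : Fin (B ^ (k + 1))} (h : W B k v = W B k v') : v = v' := by
  unfold W at h
  rw [dif_pos v.2, dif_pos v'.2] at h
  have := finFunctionFinEquiv.symm.injective (wd_inj h)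
  exact this

lemma W_sum (B k : ℕ) (s : ℝ) : ∑ v : Fin (B ^ (k + 1)), (D (W B k v) 0 / 2) ^ (2 * s) =
    ∑ f : Fin (k + 1) → Fin B, (D (wd f) 0 / 2) ^ (2 * s) := by
  rw [← finFunctionFinEquiv.symm.sum_comp]
  refine Finset.sum_congr rfl fun v _ => ?_
  unfold W
  rw [dif_pos v.2]

theorem le_dimH_XS {B : ℕ} (hB : 1 ≤ B) {s : ℝ≥0} (hs0 : 0 < s) (hs1 : s ≤ 1)
    (hθ : 1 < (B : ℝ) / (B + 2) * 2 ^ (1 - (s : ℝ))) : (s : ℝ≥0∞) ≤ dimH (XS B) := by
  have hs0' : (0 : ℝ) < s := by exact_mod_cast hs0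
  have hs1' : (s : ℝ) ≤ 1 := by exact_mod_cast hs1
  have hB' : (1 : ℝ) ≤ B := by exact_mod_cast hB
  set θ : ℝ := (B : ℝ) / (B + 2) * 2 ^ (1 - (s : ℝ)) with hθdef
  have hPos : ∀ k v, Pos ((k + 1) :: W B k v) := by
    intro k v a ha
    rcases List.mem_cons.1 ha with h | h
    · omega
    · exact W_pos B k v a h
  obtain ⟨X, hXm, hX, hXr⟩ := exists_levels (fun k v => (k + 1) :: W B k v) hPos
    fun k v => List.cons_ne_nil _ _
  set ε : ℕ → ℕ → ℝ := fun k v => D (W B k v) 0 / 2 with hε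
  have hε0 : ∀ k v, 0 < ε k v := fun k v => half_pos (D_pos (W_pos B k v) le_rfl)
  have hε1 : ∀ k v, ε k v ≤ 1 := fun k v => by
    have := D_le_one (W_pos B k v) (le_refl (0 : ℝ))
    simp only [hε]
    linarith
  set Z : ℕ → ℝ := fun k => ∑ v : Fin (B ^ (k + 1)), ε k v ^ (2 * (s : ℝ)) with hZ
  have hZ1 : ∀ k, ((B : ℝ) / (B + 2)) / 4 * θ ^ k ≤ Z k := fun k => by
    simp only [hZ, hε]
    rw [W_sum]
    exact sum_D_rpow B k hs1'
  have hZ0 : ∀ k, 0 < Z k := fun k => lt_of_lt_of_le (by positivity) (hZ1 k)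
  set Λ : ℝ := 4 * ((B : ℝ) + 3) * (B + 1) ^ 2 with hΛ
  have hΛ1 : 1 ≤ Λ := by rw [hΛ]; nlinarith
  have hΛ0 : 0 < Λ := by linarith
  -- the ratios
  set r : ℕ → ℝ := fun i => ((i : ℝ) + 2) ^ 2 * Λ / Z i with hr
  have hr0 : ∀ i, 0 ≤ r i := fun i => div_nonneg (by positivity) (hZ0 i).le
  have hr1 : ∀ᶠ i in atTop, r i ≤ 1 := by
    have h1 := tendsto_pow_const_div_const_pow_of_one_lt 2 hθ
    have h2 : Tendsto (fun n : ℕ => (9 * Λ / ((B : ℝ) / (B + 2) / 4)) * ((n : ℝ) ^ 2 / θ ^ n)) atTop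
        (𝓝 ((9 * Λ / ((B : ℝ) / (B + 2) / 4)) * 0)) := h1.const_mul _
    rw [mul_zero] at h2
    filter_upwards [h2.eventually_lt_const zero_lt_one, eventually_ge_atTop 1] with n hn hn1
    have hn1' : (1 : ℝ) ≤ n := by exact_mod_cast hn1
    refine le_trans ?_ hn.le
    have hθn : 0 < θ ^ n := pow_pos (by linarith) n
    have h3 : ((n : ℝ) + 2) ^ 2 ≤ 9 * (n : ℝ) ^ 2 := by nlinarith
    calc r n ≤ (9 * (n : ℝ) ^ 2) * Λ / (((B : ℝ) / (B + 2)) / 4 * θ ^ n) := by
          apply div_le_div₀ (by positivity) _ (by positivity) (hZ1 n)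
          exact mul_le_mul_of_nonneg_right h3 hΛ0.le
      _ = _ := by
          field_simp
  obtain ⟨C0, hC0, hC⟩ := exists_prod_bound hr0 hr1
  have hprodZ : ∀ n, ∏ i ∈ Finset.range n, (Z i)⁻¹ ≤
      C0 * (∏ i ∈ Finset.range n, (1 / ((i : ℝ) + 2)) ^ 2) * (1 / Λ) ^ n := by
    intro n
    have h1 : ∏ i ∈ Finset.range n, (Z i)⁻¹ = (∏ i ∈ Finset.range n, r i) *
        ((∏ i ∈ Finset.range n, (1 / ((i : ℝ) + 2)) ^ 2) * (1 / Λ) ^ n) := by
      have : (1 / Λ) ^ n = ∏ _i ∈ Finset.range n, (1 / Λ) := by simp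
      rw [this, ← Finset.prod_mul_distrib, ← Finset.prod_mul_distrib]
      refine Finset.prod_congr rfl fun i _ => ?_
      simp only [hr]
      have := (hZ0 i).ne'
      have h2 : (i : ℝ) + 2 ≠ 0 := by positivity
      field_simp
    rw [h1, mul_assoc]
    exact mul_le_mul_of_nonneg_right (hC n) (mul_nonneg (Finset.prod_nonneg fun i _ => by positivity)
      (by positivity))
  refine le_dimH_of_levels (fun n => B ^ (n + 1)) (fun n v => ε n v ^ (2 * (s : ℝ)) / Z n)
    (fun n v => div_nonneg (Real.rpow_nonneg (hε0 _ _).le _) (hZ0 n).le) (fun n => ?_)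
    (π := fun ω => X 0 fun n => (ω n : ℕ)) ?_ hs0 (C := C0 * Λ) (mul_pos hC0 hΛ0) (fun ω => ?_)
    (fun n ω ω' hag hlt => ?_) (XS B) fun ω => ?_
  · rw [← Finset.sum_div]
    exact div_self (hZ0 n).ne'
  · apply (hXm 0).comp
    apply measurable_pi_lambda
    intro n
    exact (measurable_of_countable (fun v : Fin (B ^ (n + 1)) => (v : ℕ))).comp
      (measurable_pi_apply n)
  · apply squeeze_zero (g := fun n : ℕ => C0 * (1 / 4 : ℝ) ^ n)
      (fun n => Finset.prod_nonneg fun i _ => div_nonneg (Real.rpow_nonneg (hε0 _ _).le _) (hZ0 i).le)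
      (fun n => ?_)
    · have := (tendsto_pow_atTop_nhds_zero_of_lt_one (r := (1 / 4 : ℝ)) (by norm_num)
        (by norm_num)).const_mul C0
      rwa [mul_zero] at this
    · calc ∏ i ∈ Finset.range n, ε i (ω i) ^ (2 * (s : ℝ)) / Z i ≤ ∏ i ∈ Finset.range n, (Z i)⁻¹ := by
            apply Finset.prod_le_prod fun i _ => div_nonneg (Real.rpow_nonneg (hε0 _ _).le _) (hZ0 i).le
            intro i _
            rw [div_eq_mul_inv]
            have : ε i (ω i) ^ (2 * (s : ℝ)) ≤ 1 :=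
              Real.rpow_le_one (hε0 _ _).le (hε1 _ _) (by positivity)
            calc _ ≤ 1 * (Z i)⁻¹ := mul_le_mul_of_nonneg_right this (inv_nonneg.2 (hZ0 i).le)
              _ = _ := one_mul _
        _ ≤ C0 * (∏ i ∈ Finset.range n, (1 / ((i : ℝ) + 2)) ^ 2) * (1 / Λ) ^ n := hprodZ n
        _ ≤ C0 * (∏ _i ∈ Finset.range n, (1 / 4 : ℝ)) * 1 := by
            apply mul_le_mul
            · apply mul_le_mul_of_nonneg_left _ hC0.le
              apply Finset.prod_le_prod fun i _ => by positivity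
              intro i _
              rw [show (1 / 4 : ℝ) = (1 / 2) ^ 2 by norm_num]
              apply pow_le_pow_left₀ (by positivity)
              apply one_div_le_one_div_of_le (by norm_num)
              have : (0 : ℝ) ≤ i := Nat.cast_nonneg i
              linarith
            · apply pow_le_one₀ (by positivity)
              rw [div_le_one hΛ0]; exact hΛ1
            · positivity
            · exact mul_nonneg hC0.le (Finset.prod_nonneg fun i _ => by norm_num)
        _ = _ := by simp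
  · -- the main inequality
    set a : ℕ → ℕ := fun k => (ω k : ℕ) with ha
    set a' : ℕ → ℕ := fun k => (ω' k : ℕ) with ha'
    have hag' : ∀ i < n, a i = a' i := fun i hi => by simp only [ha, ha', hag i hi]
    have hne : W B n (a n) ≠ W B n (a' n) := fun h => hlt.ne (W_inj h)
    have hn0 : (0 : ℝ) ≤ n := Nat.cast_nonneg n
    -- separation
    have hsep : (1 / Λ) ^ (n + 1) ≤ |X n a - X n a'| := by
      set z := X (n + 1) a with hz
      set z' := X (n + 1) a' with hz'
      have hzlow : ∀ c : ℕ → ℕ, X (n + 1) c ∈ Icc (1 / ((B : ℝ) + n + 3)) 1 := by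
        intro c
        refine ⟨?_, (hX (n + 1) c).2.le⟩
        rw [hXr (n + 1) c, phi_cons, ← one_div]
        have h1 := phi_mem (W_pos B (n + 1) (c (n + 1))) (Ioo_subset_Icc_self (hX (n + 1 + 1) c))
        apply one_div_le_one_div_of_le
        · have := h1.1; positivity
        · push_cast
          linarith [h1.2]
      have h1 := words_sep (m := B) (η := 1 / ((B : ℝ) + n + 3)) (by positivity)
        (one_div_le_one_div_of_le (by positivity) (by linarith)) (W B n (a n)) (W B n (a' n))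
        (by rw [W_length, W_length]) hne (W_pos _ _ _) (W_pos _ _ _) (W_le hB _ _) (W_le hB _ _) z z'
        (hzlow a) (hzlow a')
      rw [W_length] at h1
      rw [hXr n a, hXr n a', phi_cons, phi_cons]
      have y1 := phi_mem (W_pos B n (a n)) (Ioo_subset_Icc_self (hX (n + 1) a))
      have y2 := phi_mem (W_pos B n (a' n)) (Ioo_subset_Icc_self (hX (n + 1) a'))
      rw [← hz] at y1 ⊢
      rw [← hz'] at y2 ⊢
      set y := phi (W B n (a n)) z
      set y' := phi (W B n (a' n)) z'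
      have c1 : 0 < (((n + 1 : ℕ) : ℝ)) + y := by push_cast; linarith [y1.1]
      have c2 : 0 < (((n + 1 : ℕ) : ℝ)) + y' := by push_cast; linarith [y2.1]
      rw [inv_sub_inv c1.ne' c2.ne', abs_div, abs_of_pos (mul_pos c1 c2), le_div_iff₀ (mul_pos c1 c2)]
      have e1 : (((n + 1 : ℕ) : ℝ)) + y' - ((((n + 1 : ℕ) : ℝ)) + y) = -(y - y') := by ring
      rw [e1, abs_neg]
      refine le_trans ?_ h1
      have c3 : (((n + 1 : ℕ) : ℝ)) + y ≤ n + 2 := by push_cast; linarith [y1.2]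
      have c4 : (((n + 1 : ℕ) : ℝ)) + y' ≤ n + 2 := by push_cast; linarith [y2.2]
      have c5 : ((((n + 1 : ℕ) : ℝ)) + y) * ((((n + 1 : ℕ) : ℝ)) + y') ≤ 4 ^ (n + 1) := by
        have h2 : (n : ℝ) + 2 ≤ 2 ^ (n + 1) := by
          have : n + 1 + 1 ≤ 2 ^ (n + 1) := Nat.lt_two_pow_self
          have h3 : ((n + 1 + 1 : ℕ) : ℝ) ≤ 2 ^ (n + 1) := by exact_mod_cast this
          push_cast at h3
          linarith
        calc _ ≤ ((n : ℝ) + 2) * (n + 2) := mul_le_mul c3 c4 c2.le (by positivity)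
          _ ≤ 2 ^ (n + 1) * 2 ^ (n + 1) := mul_le_mul h2 h2 (by positivity) (by positivity)
          _ = 4 ^ (n + 1) := by rw [← mul_pow]; norm_num
      have c6 : (B : ℝ) + n + 3 ≤ ((B : ℝ) + 3) ^ (n + 1) := by
        have h2 : ∀ j : ℕ, (B : ℝ) + j + 3 ≤ ((B : ℝ) + 3) ^ (j + 1) := by
          intro j
          induction j with
          | zero => simp
          | succ j ih =>
            rw [pow_succ]
            have : (0 : ℝ) ≤ j := Nat.cast_nonneg j
            push_cast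
            nlinarith
        exact h2 n
      calc (1 / Λ) ^ (n + 1) * (((((n + 1 : ℕ) : ℝ)) + y) * ((((n + 1 : ℕ) : ℝ)) + y')) ≤
            (1 / Λ) ^ (n + 1) * 4 ^ (n + 1) := mul_le_mul_of_nonneg_left c5 (by positivity)
        _ = 1 / ((B : ℝ) + 3) ^ (n + 1) * (1 / ((B : ℝ) + 1) ^ 2) ^ (n + 1) := by
            rw [← mul_pow, ← one_div_pow ((B : ℝ) + 3), ← mul_pow]
            congr 1
            rw [hΛ]
            field_simp
        _ ≤ _ := mul_le_mul_of_nonneg_right (one_div_le_one_div_of_le (by positivity) c6)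
            (by positivity)
    have hd0 := levels_dist hPos hX hXr (ω := a) (ω' := a')
      (ε := fun k => (1 / ((k : ℝ) + 2)) * ε k (a k))
      (fun k => mul_pos (by positivity) (hε0 _ _)) (fun k u hu => by
        rw [D_cons]
        have h1 := phi_mem (W_pos B k (a k)) hu
        have h2 : ε k (a k) ≤ D (W B k (a k)) u := D_ge_half (W_pos _ _ _) hu
        have h3 : 1 / ((k : ℝ) + 2) ≤ (((k + 1 : ℕ) : ℝ) + phi (W B k (a k)) u)⁻¹ := by
          rw [one_div]
          apply inv_anti₀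
          · push_cast
            have : (0 : ℝ) ≤ k := Nat.cast_nonneg _
            linarith [h1.1]
          · push_cast
            linarith [h1.2]
        exact mul_le_mul h3 h2 (hε0 _ _).le (le_trans (by positivity) h3)) n hag'
    have hsum : ∑ v ∈ Finset.Icc (ω n) (ω' n), ε n v ^ (2 * (s : ℝ)) / Z n ≤ 1 := by
      calc _ ≤ ∑ v : Fin (B ^ (n + 1)), ε n v ^ (2 * (s : ℝ)) / Z n :=
            Finset.sum_le_sum_of_subset_of_nonneg (Finset.subset_univ _)
              fun v _ _ => div_nonneg (Real.rpow_nonneg (hε0 _ _).le _) (hZ0 n).le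
        _ = 1 := by rw [← Finset.sum_div]; exact div_self (hZ0 n).ne'
    set E : ℝ := ∏ i ∈ Finset.range n, ε i (a i) ^ 2 with hE
    have hE0 : 0 < E := Finset.prod_pos fun i _ => pow_pos (hε0 _ _) 2
    set A : ℝ := ∏ i ∈ Finset.range n, (1 / ((i : ℝ) + 2)) ^ 2 with hA
    have hA0 : 0 < A := Finset.prod_pos fun i _ => by positivity
    have hA1 : A ≤ 1 := by
      apply Finset.prod_le_one fun i _ => by positivity
      intro i _
      apply pow_le_one₀ (by positivity)
      rw [div_le_one (by positivity)]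
      have : (0 : ℝ) ≤ i := Nat.cast_nonneg i
      linarith
    have hd1 : E * (A * (1 / Λ) ^ (n + 1)) ≤ |X 0 a - X 0 a'| := by
      refine le_trans (le_of_eq ?_) ((mul_le_mul_of_nonneg_left hsep
        (Finset.prod_nonneg fun i _ => sq_nonneg _)).trans hd0)
      rw [← mul_assoc]
      congr 1
      rw [hE, hA, ← Finset.prod_mul_distrib]
      refine Finset.prod_congr rfl fun i _ => ?_
      ring
    have hb0 : 0 < A * (1 / Λ) ^ (n + 1) := by positivity
    have hb1 : A * (1 / Λ) ^ (n + 1) ≤ 1 := by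
      have : (1 / Λ) ^ (n + 1) ≤ 1 := by
        apply pow_le_one₀ (by positivity)
        rw [div_le_one hΛ0]; exact hΛ1
      calc _ ≤ 1 * 1 := mul_le_mul hA1 this (by positivity) zero_le_one
        _ = 1 := one_mul _
    have hd2 : E ^ (s : ℝ) * (A * (1 / Λ) ^ (n + 1)) ≤ |X 0 a - X 0 a'| ^ (s : ℝ) := by
      have h1 := Real.rpow_le_rpow (by positivity) hd1 hs0'.le
      rw [Real.mul_rpow hE0.le hb0.le] at h1
      refine le_trans ?_ h1
      apply mul_le_mul_of_nonneg_left _ (Real.rpow_nonneg hE0.le _)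
      calc A * (1 / Λ) ^ (n + 1) = (A * (1 / Λ) ^ (n + 1)) ^ (1 : ℝ) := (Real.rpow_one _).symm
        _ ≤ _ := Real.rpow_le_rpow_of_exponent_ge hb0 hb1 hs1'
    have hEs : ∏ i ∈ Finset.range n, ε i (a i) ^ (2 * (s : ℝ)) = E ^ (s : ℝ) := by
      rw [hE, ← Real.finsetProd_rpow _ _ fun i _ => by positivity]
      refine Finset.prod_congr rfl fun i _ => ?_
      rw [← Real.rpow_natCast, ← Real.rpow_mul (hε0 _ _).le]
      norm_num
    have hlhs : ∏ i ∈ Finset.range n, ε i (a i) ^ (2 * (s : ℝ)) / Z i ≤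
        E ^ (s : ℝ) * (C0 * A * (1 / Λ) ^ n) := by
      have e1 : ∏ i ∈ Finset.range n, ε i (a i) ^ (2 * (s : ℝ)) / Z i =
          (∏ i ∈ Finset.range n, ε i (a i) ^ (2 * (s : ℝ))) * ∏ i ∈ Finset.range n, (Z i)⁻¹ := by
        rw [← Finset.prod_mul_distrib]
        exact Finset.prod_congr rfl fun i _ => div_eq_mul_inv _ _
      rw [e1, hEs]
      exact mul_le_mul_of_nonneg_left (hprodZ n) (Real.rpow_nonneg hE0.le _)
    show (∏ i ∈ Finset.range n, ε i (a i) ^ (2 * (s : ℝ)) / Z i) *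
      ∑ v ∈ Finset.Icc (ω n) (ω' n), ε n v ^ (2 * (s : ℝ)) / Z n ≤
      C0 * Λ * |X 0 a - X 0 a'| ^ (s : ℝ)
    calc _ ≤ (E ^ (s : ℝ) * (C0 * A * (1 / Λ) ^ n)) * 1 := by
          apply mul_le_mul hlhs hsum
          · exact Finset.sum_nonneg fun v _ =>
              div_nonneg (Real.rpow_nonneg (hε0 _ _).le _) (hZ0 n).le
          · positivity
      _ = C0 * Λ * (E ^ (s : ℝ) * (A * (1 / Λ) ^ (n + 1))) := by
          rw [pow_succ]
          field_simp
      _ ≤ _ := mul_le_mul_of_nonneg_left hd2 (by positivity)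
  · refine ⟨fun k => X k fun n => (ω n : ℕ), fun k => W B k (ω k : ℕ), rfl, fun k =>
      ⟨hX _ _, hXr _ _, W_pos _ _ _, W_length _ _ _, W_le hB _ _⟩⟩

/-- the set of points whose asymptotic set has dimension one half has dimension one -/
theorem dimH_half : dimH {x : ℝ | x ∈ Ico (0 : ℝ) 1 ∧ dimH (AS x) = 1 / 2} = 1 := by
  refine le_antisymm ?_ ?_
  · refine (dimH_mono (subset_univ _)).trans ?_
    rw [Real.dimH_univ]
  · refine le_of_forall_lt fun c hc => ?_
    obtain ⟨d, hd1, hd2⟩ := exists_between hc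
    lift d to ℝ≥0 using hd2.ne_top
    have hd0 : 0 < d := by
      have : (0 : ℝ≥0∞) < d := lt_of_le_of_lt zero_le hd1
      exact_mod_cast this
    have hd2' : d < 1 := by exact_mod_cast hd2
    have hd3 : (d : ℝ) < 1 := by exact_mod_cast hd2'
    -- choose B
    have h2 : (1 : ℝ) < 2 ^ (1 - (d : ℝ)) := Real.one_lt_rpow (by norm_num) (by linarith)
    obtain ⟨B, hB⟩ : ∃ B : ℕ, 1 ≤ B ∧ 1 < (B : ℝ) / (B + 2) * 2 ^ (1 - (d : ℝ)) := by
      obtain ⟨N, hN⟩ := exists_nat_gt ((2 : ℝ) / ((2 : ℝ) ^ (1 - (d : ℝ)) - 1))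
      refine ⟨N + 1, by omega, ?_⟩
      rw [div_lt_iff₀ (by linarith)] at hN
      rw [div_mul_eq_mul_div, lt_div_iff₀ (by positivity)]
      push_cast
      nlinarith
    refine hd1.trans_le ((le_dimH_XS hB.1 hd0 hd2'.le hB.2).trans (dimH_mono ?_))
    intro x hx
    refine ⟨?_, dimH_AS_XS hx⟩
    obtain ⟨z, w, rfl, h⟩ := hx
    exact Ioo_subset_Ico_self (h 0).1

end Q261.Asy
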