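import Pool.Agent.Q261.AS.Basic

set_option autoImplicit false

/-!
# Asymptotic sets of the Gauss map have dimension at most one half
-/

namespace Q261.Asy

open Set Filter Topology MeasureTheory Q261.CFD
open scoped ENNReal NNReal

/-- tails of the zeta series -/
lemma exists_tail {t : ℝ} (ht : 1 < t) : ∃ M : ℕ, ∀ A : Set ℕ, A ⊆ Ioi M →
    ∑' b : {b : ℕ // b ∈ A ∧ 1 ≤ b}, ENNReal.ofReal (((b : ℕ) : ℝ)⁻¹) ^ t ≤ 1 / 2 := by
  have ht0 : 0 < t := by linarith
  set f : ℕ → ℝ≥0∞ := fun b => ENNReal.ofReal ((b : ℝ)⁻¹) ^ t with hf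
  have h1 : ∑' b, f b ≠ ∞ := by
    have h2 : Summable fun b : ℕ => ((b : ℝ)⁻¹) ^ t := by
      have := Real.summable_one_div_nat_rpow.2 ht
      refine this.congr fun b => ?_
      rw [one_div, Real.inv_rpow (Nat.cast_nonneg _)]
    have h3 : ∀ b, f b = ENNReal.ofReal (((b : ℝ)⁻¹) ^ t) := fun b =>
      ENNReal.ofReal_rpow_of_nonneg (by positivity) ht0.le
    simp_rw [h3]
    exact h2.tsum_ofReal_ne_top
  have h2 := ENNReal.tendsto_sum_nat_add f h1
  have h3 : ∀ᶠ i in atTop, ∑' k, f (k + i) ≤ 1 / 2 := by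
    have := h2.eventually_lt_const (u := (1 / 2 : ℝ≥0∞)) (by norm_num)
    exact this.mono fun i hi => hi.le
  obtain ⟨i, hi⟩ := h3.exists
  refine ⟨i, fun A hA => le_trans ?_ hi⟩
  have hinj : Function.Injective (fun b : {b : ℕ // b ∈ A ∧ 1 ≤ b} => (b : ℕ) - i) := by
    intro a b hab
    have h4 := hA a.2.1
    have h5 := hA b.2.1
    simp only [mem_Ioi] at h4 h5
    apply Subtype.ext
    have : (a : ℕ) - i = (b : ℕ) - i := hab
    omega
  have h4 := ENNReal.tsum_comp_le_tsum_of_injective hinj (fun k => f (k + i))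
  refine le_trans (le_of_eq ?_) h4
  refine tsum_congr fun b => ?_
  have h5 := hA b.2.1
  simp only [mem_Ioi] at h5
  have : (b : ℕ) - i + i = b := by omega
  simp only [this, hf]

/-- two irrational numbers with the same digits are equal -/
lemma eq_of_dig {y z : ℝ} (hy : Irrational y) (hy' : y ∈ Ioo (0 : ℝ) 1) (hz : Irrational z)
    (hz' : z ∈ Ioo (0 : ℝ) 1) (h : ∀ n, dig y n = dig z n) : y = z := by
  have h1 : ∀ n : ℕ, |y - z| ≤ 2 * (1 / 2 : ℝ) ^ n := by
    intro n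
    have e1 := eq_phi_pre hy hy' n
    have e2 := eq_phi_pre hz hz' n
    rw [← pre_eq n fun i _ => h i] at e2
    rw [e1, e2]
    have := phi_dist_le (pre_pos hy hy' n) (Ioo_subset_Icc_self (iter_mem hy hy' n))
      (Ioo_subset_Icc_self (iter_mem hz hz' n))
    rwa [pre_length] at this
  have h2 : Tendsto (fun n : ℕ => 2 * (1 / 2 : ℝ) ^ n) atTop (𝓝 (2 * 0)) :=
    (tendsto_pow_atTop_nhds_zero_of_lt_one (by norm_num) (by norm_num)).const_mul 2
  have h3 : |y - z| ≤ 2 * 0 := ge_of_tendsto' h2 h1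
  have h4 : |y - z| = 0 := le_antisymm (by simpa using h3) (abs_nonneg _)
  exact sub_eq_zero.1 (abs_eq_zero.1 h4)

lemma dimH_phi_image {w : List ℕ} (hw : Pos w) {Y : Set ℝ} (hY : Y ⊆ Ioo 0 1) :
    dimH (phi w '' Y) ≤ dimH Y := by
  have : LipschitzOnWith 1 (phi w) Y := by
    apply LipschitzOnWith.of_dist_le_mul
    intro x hx y hy
    rw [Real.dist_eq, Real.dist_eq, NNReal.coe_one, one_mul]
    exact phi_lip hw (hY hx).1.le (hY hy).1.le
  exact this.dimH_image_le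

lemma AS_cover {x : ℝ} (Y : ℕ → Set ℝ) (hY : ∀ n, Y n ⊆ Ioo 0 1) (N0 : ℕ)
    (hA : ∀ y ∈ AS x, Irrational y → ∃ N ≥ N0, gauss^[N] y ∈ Y N)
    (s : ℝ≥0∞) (hs : ∀ N ≥ N0, dimH (Y N) ≤ s) : dimH (AS x) ≤ s := by
  classical
  have h1 : AS x ⊆ Set.range ((↑) : ℚ → ℝ) ∪ ⋃ w : List ℕ,
      if Pos w ∧ N0 ≤ w.length then phi w '' (Y w.length) else ∅ := by
    intro y hy
    by_cases hir : Irrational y
    · right
      obtain ⟨N, hN, h2⟩ := hA y hy hir
      have hy' : y ∈ Ioo (0 : ℝ) 1 := ⟨lt_of_le_of_ne hy.1.1 (Ne.symm hir.ne_zero), hy.1.2⟩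
      refine mem_iUnion.2 ⟨pre y N, ?_⟩
      rw [if_pos ⟨pre_pos hir hy' N, by rw [pre_length]; exact hN⟩, pre_length]
      exact ⟨gauss^[N] y, h2, (eq_phi_pre hir hy' N).symm⟩
    · left
      unfold Irrational at hir
      push Not at hir
      exact hir
  refine (dimH_mono h1).trans ?_
  rw [dimH_union, dimH_iUnion]
  refine max_le ?_ (iSup_le fun w => ?_)
  · rw [(Set.countable_range _).dimH_zero]
    exact zero_le
  · split_ifs with h
    · exact (dimH_phi_image h.1 (hY _)).trans (hs _ h.2)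
    · rw [dimH_empty]; exact zero_le

lemma sum_single_le {a : ℕ} {t : ℝ} (ht : 0 ≤ t) :
    ∑' b : {b : ℕ // b ∈ ({a} : Set ℕ) ∧ 1 ≤ b}, ENNReal.ofReal (((b : ℕ) : ℝ)⁻¹) ^ t ≤ 1 := by
  have h1 : ∀ b : {b : ℕ // b ∈ ({a} : Set ℕ) ∧ 1 ≤ b},
      ENNReal.ofReal (((b : ℕ) : ℝ)⁻¹) ^ t ≤ 1 := by
    intro b
    have hb : (1 : ℝ) ≤ (b : ℕ) := by exact_mod_cast b.2.2
    have h2 : ENNReal.ofReal (((b : ℕ) : ℝ)⁻¹) ≤ 1 := by
      rw [← ENNReal.ofReal_one]
      exact ENNReal.ofReal_le_ofReal (inv_le_one_of_one_le₀ hb)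
    exact (ENNReal.rpow_le_rpow h2 ht).trans (by rw [ENNReal.one_rpow])
  have hsub : Subsingleton {b : ℕ // b ∈ ({a} : Set ℕ) ∧ 1 ≤ b} := by
    refine ⟨fun b c => Subtype.ext ?_⟩
    rw [Set.mem_singleton_iff.1 b.2.1, Set.mem_singleton_iff.1 c.2.1]
  rcases isEmpty_or_nonempty {b : ℕ // b ∈ ({a} : Set ℕ) ∧ 1 ≤ b} with h | h
  · simp
  · obtain ⟨b0⟩ := h
    rw [tsum_eq_single b0 fun b hb => absurd (Subsingleton.elim b b0) hb]
    exact h1 b0

lemma dimH_restricted' {M : ℕ} {s : ℝ≥0} (hs : 0 < s)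
    (hM : ∀ A : Set ℕ, A ⊆ Ioi M →
      ∑' b : {b : ℕ // b ∈ A ∧ 1 ≤ b}, ENNReal.ofReal (((b : ℕ) : ℝ)⁻¹) ^ (2 * (s : ℝ)) ≤ 1 / 2)
    (A : ℕ → Set ℕ) (hA : ∀ n, (∃ a, A n = {a}) ∨ A n = Ioi M)
    (hinf : ∀ N, ∃ n ≥ N, A n = Ioi M) :
    dimH {y : ℝ | y ∈ Ioo (0 : ℝ) 1 ∧ Irrational y ∧ ∀ n, dig y n ∈ A n} ≤ s := by
  classical
  have hs' : (0 : ℝ) < s := by exact_mod_cast hs
  apply dimH_restricted A hs
  set σ : ℕ → ℝ≥0∞ := fun i => ∑' b : {b : ℕ // b ∈ A i ∧ 1 ≤ b},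
      ENNReal.ofReal (((b : ℕ) : ℝ)⁻¹) ^ (2 * (s : ℝ)) with hσ
  set c : ℕ → ℕ := fun n => ((Finset.range n).filter fun i => A i = Ioi M).card with hc
  have h1 : ∀ i, σ i ≤ if A i = Ioi M then 1 / 2 else 1 := by
    intro i
    split_ifs with h
    · exact hM (A i) h.le
    · obtain ⟨a, ha⟩ := (hA i).resolve_right h
      show ∑' b : {b : ℕ // b ∈ A i ∧ 1 ≤ b},
        ENNReal.ofReal (((b : ℕ) : ℝ)⁻¹) ^ (2 * (s : ℝ)) ≤ 1
      rw [ha]
      exact sum_single_le (by positivity)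
  have h2 : ∀ n, ∏ i ∈ Finset.range n, σ i ≤ (1 / 2) ^ c n := by
    intro n
    calc ∏ i ∈ Finset.range n, σ i ≤ ∏ i ∈ Finset.range n, if A i = Ioi M then (1 / 2 : ℝ≥0∞) else 1 :=
          Finset.prod_le_prod' fun i _ => h1 i
      _ = (1 / 2) ^ c n := by
          rw [Finset.prod_ite, Finset.prod_const, Finset.prod_const_one, mul_one]
  have h3 : Tendsto c atTop atTop := by
    apply tendsto_atTop_atTop_of_monotone
    · intro m n hmn
      exact Finset.card_le_card (Finset.filter_subset_filter _ (Finset.range_mono hmn))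
    · intro b
      induction b with
      | zero => exact ⟨0, Nat.zero_le _⟩
      | succ b ih =>
        obtain ⟨n, hn⟩ := ih
        obtain ⟨m, hm, hAm⟩ := hinf n
        refine ⟨m + 1, ?_⟩
        have h4 : c m + 1 ≤ c (m + 1) := by
          simp only [hc]
          rw [Finset.range_add_one, Finset.filter_insert, if_pos hAm, Finset.card_insert_of_notMem]
          simp
        have h5 : c n ≤ c m :=
          Finset.card_le_card (Finset.filter_subset_filter _ (Finset.range_mono hm))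
        omega
  have h4 : Tendsto (fun n => (1 / 2 : ℝ≥0∞) ^ c n) atTop (𝓝 0) :=
    (ENNReal.tendsto_pow_atTop_nhds_zero_of_lt_one (by norm_num)).comp h3
  exact tendsto_of_tendsto_of_tendsto_of_le_of_le tendsto_const_nhds h4 (fun n => zero_le) h2

/-- **asymptotic sets have dimension at most one half** -/
theorem dimH_AS_le {x : ℝ} (hx : x ∈ Ico (0 : ℝ) 1) : dimH (AS x) ≤ 1 / 2 := by
  classical
  have key : ∀ s : ℝ≥0, 1 / 2 < s → dimH (AS x) ≤ s := by
    intro s hs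
    have hs' : (1 / 2 : ℝ) < s := by exact_mod_cast hs
    have hs0 : 0 < s := lt_trans (by norm_num) hs
    obtain ⟨M, hM⟩ := exists_tail (t := 2 * (s : ℝ)) (by linarith)
    by_cases hir : Irrational x
    · have hx' : x ∈ Ioo (0 : ℝ) 1 := ⟨lt_of_le_of_ne hx.1 (Ne.symm hir.ne_zero), hx.2⟩
      set A : ℕ → Set ℕ := fun n => if dig x n ≤ M then {dig x n} else Ioi M with hA
      set Y : ℕ → Set ℝ := fun N =>
        {y : ℝ | y ∈ Ioo (0 : ℝ) 1 ∧ Irrational y ∧ ∀ n, dig y n ∈ A (N + n)} with hY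
      have hYs : ∀ n, Y n ⊆ Ioo 0 1 := fun n y hy => hy.1
      have hmem : ∀ y ∈ AS x, Irrational y → ∃ N0, ∀ N ≥ N0, gauss^[N] y ∈ Y N := by
        intro y hy hiy
        have hy' : y ∈ Ioo (0 : ℝ) 1 := ⟨lt_of_le_of_ne hy.1.1 (Ne.symm hiy.ne_zero), hy.1.2⟩
        obtain ⟨N0, hN0⟩ := digits_of_AS hir hx' hiy hy' hy.2 M
        refine ⟨N0, fun N hN => ⟨iter_mem hiy hy' N, irrational_iter hiy N, fun n => ?_⟩⟩
        rw [dig_iter, hA]
        simp only
        split_ifs with h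
        · rcases hN0 (N + n) (by omega) with h1 | h1
          · rw [← h1]; rfl
          · omega
        · rcases hN0 (N + n) (by omega) with h1 | h1
          · rw [mem_Ioi, ← h1]; omega
          · exact h1.2
      by_cases hinf : ∀ N, ∃ n ≥ N, ¬ dig x n ≤ M
      · refine AS_cover Y hYs 0 (fun y hy hiy => ?_) s fun N _ => ?_
        · obtain ⟨N0, h⟩ := hmem y hy hiy
          exact ⟨N0, Nat.zero_le _, h N0 le_rfl⟩
        · refine dimH_restricted' hs0 hM (fun n => A (N + n)) (fun n => ?_) fun N' => ?_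
          · simp only [hA]
            split_ifs with h
            · exact Or.inl ⟨_, rfl⟩
            · exact Or.inr rfl
          · obtain ⟨n, hn, h⟩ := hinf (N + N')
            refine ⟨n - N, by omega, ?_⟩
            simp only [hA]
            rw [show N + (n - N) = n by omega, if_neg h]
      · push Not at hinf
        obtain ⟨N1, hN1⟩ := hinf
        refine AS_cover Y hYs N1 (fun y hy hiy => ?_) s fun N hN => ?_
        · obtain ⟨N0, h⟩ := hmem y hy hiy
          exact ⟨max N0 N1, le_max_right _ _, h _ (le_max_left _ _)⟩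
        · have hsub : (Y N).Subsingleton := by
            intro y hy z hz
            refine eq_of_dig hy.2.1 hy.1 hz.2.1 hz.1 fun n => ?_
            have h1 := hy.2.2 n
            have h2 := hz.2.2 n
            simp only [hA] at h1 h2
            rw [if_pos (hN1 (N + n) (by omega))] at h1 h2
            rw [Set.mem_singleton_iff.1 h1, Set.mem_singleton_iff.1 h2]
          rw [hsub.dimH_zero]
          exact zero_le
    · refine AS_cover (fun _ => {y : ℝ | y ∈ Ioo (0 : ℝ) 1 ∧ Irrational y ∧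
        ∀ n, dig y n ∈ (fun _ => Ioi M : ℕ → Set ℕ) n}) (fun _ y hy => hy.1) 0
        (fun y hy hiy => ?_) s fun N _ => ?_
      · have hy' : y ∈ Ioo (0 : ℝ) 1 := ⟨lt_of_le_of_ne hy.1.1 (Ne.symm hiy.ne_zero), hy.1.2⟩
        obtain ⟨N, hN⟩ := digits_of_AS_rat hx hir hiy hy' hy.2 M
        refine ⟨N, Nat.zero_le _, iter_mem hiy hy' N, irrational_iter hiy N, fun n => ?_⟩
        rw [dig_iter]
        exact hN _ (by omega)
      · exact dimH_restricted' hs0 hM _ (fun n => Or.inr rfl) fun N' => ⟨N', le_rfl, rfl⟩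
  refine le_of_forall_gt_imp_ge_of_dense fun c hc => ?_
  rcases eq_or_ne c ∞ with h | h
  · rw [h]; exact le_top
  · lift c to ℝ≥0 using h
    have h2 : (1 / 2 : ℝ≥0) < c := by
      rw [← ENNReal.coe_lt_coe, ENNReal.coe_div (by norm_num)]
      exact hc
    exact key c h2

end Q261.Asy
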