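import Pool.Agent.Q261.AS.Lower
import Pool.Agent.Q261.AS.Upper
import Pool.Agent.Q261.CFD.Part

set_option autoImplicit false

/-!
# Points whose asymptotic set has dimension one half
-/

namespace Q261.Asy

open Set Filter Topology MeasureTheory Q261.CFD
open scoped ENNReal NNReal

lemma exists_const {f : ℕ → ℝ} (h : ∀ᶠ n in atTop, 0 ≤ f n) : ∃ c, ∀ n, 0 ≤ f n + c := by
  obtain ⟨N, hN⟩ := eventually_atTop.1 h
  refine ⟨∑ i ∈ Finset.range N, |f i|, fun n => ?_⟩
  have h0 : 0 ≤ ∑ i ∈ Finset.range N, |f i| := Finset.sum_nonneg fun i _ => abs_nonneg _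
  rcases Nat.lt_or_ge n N with h1 | h1
  · have h2 : |f n| ≤ ∑ i ∈ Finset.range N, |f i| :=
      Finset.single_le_sum (f := fun i => |f i|) (fun i _ => abs_nonneg _) (Finset.mem_range.2 h1)
    linarith [neg_abs_le (f n)]
  · linarith [hN n h1]

lemma exists_prod_bound {r : ℕ → ℝ} (h0 : ∀ i, 0 ≤ r i) (h : ∀ᶠ n in atTop, r n ≤ 1) :
    ∃ C > 0, ∀ n, ∏ i ∈ Finset.range n, r i ≤ C := by
  obtain ⟨N, hN⟩ := eventually_atTop.1 h
  have hmono : ∀ n k : ℕ, ∏ i ∈ Finset.range n, max 1 (r i) ≤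
      ∏ i ∈ Finset.range (n + k), max 1 (r i) := by
    intro n k
    induction k with
    | zero => exact le_rfl
    | succ k ih =>
      rw [← add_assoc, Finset.prod_range_succ]
      exact ih.trans (le_mul_of_one_le_right (Finset.prod_nonneg fun i _ => by positivity)
        (le_max_left _ _))
  refine ⟨∏ i ∈ Finset.range N, max 1 (r i), Finset.prod_pos fun i _ => by positivity, fun n => ?_⟩
  calc ∏ i ∈ Finset.range n, r i ≤ ∏ i ∈ Finset.range n, max 1 (r i) :=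
        Finset.prod_le_prod (fun i _ => h0 i) fun i _ => le_max_right _ _
    _ ≤ ∏ i ∈ Finset.range (n + N), max 1 (r i) := hmono n N
    _ = ∏ i ∈ Finset.range N, max 1 (r i) := by
        symm
        apply Finset.prod_subset (Finset.range_mono (by omega))
        intro i _ hi
        rw [Finset.mem_range, not_lt] at hi
        exact max_eq_left (hN i hi)

/-- numbers made of blocks `k + 1, w_k` with `k + 1` bounded digits in `w_k` -/
def XS (m : ℕ) : Set ℝ :=
  {x | ∃ (z : ℕ → ℝ) (w : ℕ → List ℕ), z 0 = x ∧ ∀ k, z k ∈ Ioo (0 : ℝ) 1 ∧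
    z k = phi ((k + 1) :: w k) (z (k + 1)) ∧ Pos (w k) ∧ (w k).length = k + 1 ∧ ∀ a ∈ w k, a ≤ m}

theorem dimH_AS_XS {m : ℕ} {x : ℝ} (hx : x ∈ XS m) : dimH (AS x) = 1 / 2 := by
  obtain ⟨z, w, rfl, h⟩ := hx
  refine le_antisymm (dimH_AS_le (Ioo_subset_Ico_self (h 0).1)) ?_
  obtain ⟨β, hβ⟩ : ∃ β : ℕ, m + 1 ≤ 2 ^ β := ⟨m + 1, (Nat.lt_two_pow_self).le⟩
  have key : ∀ s : ℝ≥0, 0 < s → s < 1 / 2 → (s : ℝ≥0∞) ≤ dimH (AS (z 0)) := by
    intro s hs0 hs
    have hs' : (s : ℝ) < 1 / 2 := by exact_mod_cast hs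
    have hs0' : (0 : ℝ) < s := by exact_mod_cast hs0
    have hquad : ∀ n : ℕ, (n : ℝ) ^ 3 / 3 ≤ ∑ i ∈ Finset.range n, (((i + 1) ^ 2 : ℕ) : ℝ) := by
      intro n
      induction n with
      | zero => simp
      | succ n ih =>
        rw [Finset.sum_range_succ]
        push_cast at ih ⊢
        have : (0 : ℝ) ≤ n := Nat.cast_nonneg n
        nlinarith
    have hlin : ∀ n : ℕ, ∑ i ∈ Finset.range n, ((β * (i + 1) : ℕ) : ℝ) ≤ β * (n : ℝ) ^ 2 := by
      intro n
      induction n with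
      | zero => simp
      | succ n ih =>
        rw [Finset.sum_range_succ]
        push_cast at ih ⊢
        have h1 : (0 : ℝ) ≤ n := Nat.cast_nonneg n
        have h2 : (0 : ℝ) ≤ β := Nat.cast_nonneg β
        nlinarith [mul_nonneg h2 h1]
    obtain ⟨c, hc⟩ : ∃ c : ℝ, ∀ n : ℕ, 0 ≤ (∑ i ∈ Finset.range n, (((i + 1) ^ 2 : ℕ) : ℝ) -
        (s : ℝ) * (2 * ∑ i ∈ Finset.range n, (((β * (i + 1) : ℕ) : ℝ) + (((i + 1) ^ 2 : ℕ) : ℝ) + 1) +
          (((n + 1) ^ 2 : ℕ) : ℝ))) + c := by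
      apply exists_const
      obtain ⟨N, hN⟩ := exists_nat_gt ((2 * (β : ℝ) + 6) * 3 / (1 - 2 * s))
      filter_upwards [eventually_ge_atTop (max N 1)] with n hn
      have hn1 : (1 : ℝ) ≤ n := by exact_mod_cast le_trans (le_max_right _ _) hn
      have hnN : (N : ℝ) ≤ n := by exact_mod_cast le_trans (le_max_left _ _) hn
      have h1 : (2 * (β : ℝ) + 6) * 3 ≤ n * (1 - 2 * s) := by
        rw [div_lt_iff₀ (by linarith)] at hN
        have : (N : ℝ) * (1 - 2 * s) ≤ n * (1 - 2 * s) :=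
          mul_le_mul_of_nonneg_right hnN (by linarith)
        linarith
      rw [Finset.sum_add_distrib, Finset.sum_add_distrib]
      have h2 := hquad n
      have h3 := hlin n
      set Q := ∑ i ∈ Finset.range n, (((i + 1) ^ 2 : ℕ) : ℝ)
      set L := ∑ i ∈ Finset.range n, ((β * (i + 1) : ℕ) : ℝ)
      rw [Finset.sum_const, Finset.card_range, nsmul_eq_mul, mul_one]
      push_cast
      have h4 : (0 : ℝ) ≤ β := Nat.cast_nonneg β
      have h5 : (s : ℝ) * (2 * L + 2 * n + (n + 1) ^ 2) ≤ (1 / 2) * ((2 * β + 6) * (n : ℝ) ^ 2) := by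
        have : 2 * L + 2 * n + ((n : ℝ) + 1) ^ 2 ≤ (2 * β + 6) * (n : ℝ) ^ 2 := by nlinarith
        calc (s : ℝ) * (2 * L + 2 * n + (n + 1) ^ 2) ≤ s * ((2 * β + 6) * (n : ℝ) ^ 2) :=
              mul_le_mul_of_nonneg_left this hs0'.le
          _ ≤ _ := mul_le_mul_of_nonneg_right hs'.le (by positivity)
      have h6 : (1 - 2 * (s : ℝ)) * ((n : ℝ) ^ 3 / 3) ≤ (1 - 2 * s) * Q :=
        mul_le_mul_of_nonneg_left h2 (by linarith)
      have h7 : (2 * (β : ℝ) + 6) * (n : ℝ) ^ 2 ≤ (1 - 2 * s) * ((n : ℝ) ^ 3 / 3) := by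
        have h8 : (n : ℝ) ^ 2 * ((2 * (β : ℝ) + 6) * 3) ≤ (n : ℝ) ^ 2 * (n * (1 - 2 * s)) :=
          mul_le_mul_of_nonneg_left h1 (by positivity)
        nlinarith
      have h9 : (0 : ℝ) ≤ (2 * (β : ℝ) + 6) * (n : ℝ) ^ 2 := by positivity
      nlinarith
    refine le_dimH_AS (x := z) (b := fun k => k + 1) (w := w) (fun k => (h k).1)
      (fun k => (h k).2.1) (fun k => by omega) (tendsto_add_atTop_nat 1) (fun k => (h k).2.2.1)
      (fun k => ?_) (e := fun k => β * (k + 1)) (t := fun k => (k + 1) ^ 2) (fun k u hu => ?_) ?_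
      (fun k => Nat.one_le_pow _ _ (by omega)) hs0 ?_ (c := c) (fun n => ?_)
    · intro h0
      have := (h k).2.2.2.1
      rw [h0] at this
      simp at this
    · have h1 := D_ge_pow (h k).2.2.1 (h k).2.2.2.2 hu
      rw [(h k).2.2.2.1] at h1
      refine le_trans ?_ h1
      rw [pow_mul]
      apply pow_le_pow_left₀ (by positivity)
      rw [one_div, one_div, inv_pow]
      apply inv_anti₀ (by positivity)
      exact_mod_cast hβ
    · refine tendsto_atTop_mono (fun k => ?_) (tendsto_add_atTop_nat 1)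
      exact Nat.le_self_pow (by norm_num) _
    · exact le_trans hs.le (by norm_num)
    · have := hc n
      linarith
  refine le_of_forall_lt fun c hc => ?_
  obtain ⟨d, hd1, hd2⟩ := exists_between hc
  have hdt : d ≠ ∞ := (hd2.trans_le (by norm_num : (1 / 2 : ℝ≥0∞) ≤ 1)).ne_top
  lift d to ℝ≥0 using hdt
  have hd0 : 0 < d := by
    have : (0 : ℝ≥0∞) < d := lt_of_le_of_lt zero_le hd1
    exact_mod_cast this
  refine hd1.trans_le (key d hd0 ?_)
  rw [← ENNReal.coe_lt_coe, ENNReal.coe_div (by norm_num)]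
  exact hd2

end Q261.Asy
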