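import Pool.Agent.Q261.AS.Rho2

set_option autoImplicit false

/-!
# The dimension of the asymptotic sets with sparse large digits
-/

namespace Q261.Asy

open Set Filter Topology MeasureTheory Q261.CFD
open scoped ENNReal NNReal

lemma map_ofReal_prod (l : List ℕ) {t : ℝ} (ht : 0 ≤ t) :
    ENNReal.ofReal ((l.map fun b : ℕ => (b : ℝ)⁻¹).prod) ^ t =
      (l.map fun b : ℕ => ENNReal.ofReal ((b : ℝ)⁻¹) ^ t).prod := by
  induction l with
  | nil => simp
  | cons b l ih =>
    rw [List.map_cons, List.prod_cons, List.map_cons, List.prod_cons, ← ih,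
      ENNReal.ofReal_mul (by positivity), ENNReal.mul_rpow_of_nonneg _ _ ht]

/-- sums over lists -/
lemma tsum_list (g : ℕ → ℝ≥0∞) (hg : ∑' b, g b ≤ 1 / 2) (F : ℕ → List ℕ → ℝ≥0∞)
    (hF : ∀ n l, F n l ≤ if n ≤ l.length then (l.map g).prod else 0) :
    Tendsto (fun n => ∑' l, F n l) atTop (𝓝 0) := by
  have h1 : ∀ n, ∑' l, F n l ≤ 2 * (1 / 2 : ℝ≥0∞) ^ n := by
    intro n
    calc ∑' l, F n l ≤ ∑' l : List ℕ, if n ≤ l.length then (l.map g).prod else 0 :=
          ENNReal.tsum_le_tsum fun l => hF n l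
      _ = ∑' p : (Σ k, Fin k → ℕ), if n ≤ p.1 then ∏ i, g (p.2 i) else 0 := by
          rw [← List.equivSigmaTuple.symm.tsum_eq]
          refine tsum_congr fun p => ?_
          obtain ⟨k, f⟩ := p
          have e1 : List.equivSigmaTuple.symm (⟨k, f⟩ : Σ k, Fin k → ℕ) = List.ofFn f := rfl
          rw [e1, List.length_ofFn, List.map_ofFn, List.prod_ofFn]
          rfl
      _ = ∑' k : ℕ, ∑' f : Fin k → ℕ, if n ≤ k then ∏ i, g (f i) else 0 := by
          rw [ENNReal.tsum_sigma']
      _ ≤ ∑' k : ℕ, if n ≤ k then (1 / 2 : ℝ≥0∞) ^ k else 0 := by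
          refine ENNReal.tsum_le_tsum fun k => ?_
          split_ifs with h
          · rw [tsum_fin_prod (V := ℕ) k fun _ => g]
            rw [Finset.prod_const, Finset.card_univ, Fintype.card_fin]
            exact pow_le_pow_left₀ zero_le hg k
          · simp
      _ = ∑' k : ℕ, (1 / 2 : ℝ≥0∞) ^ (k + n) := by
          have hinj : Function.Injective fun k : ℕ => k + n := fun a b h => by
            have : a + n = b + n := h
            omega
          rw [← hinj.tsum_eq]
          · refine tsum_congr fun k => ?_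
            rw [if_pos (by omega)]
          · intro k hk
            rw [Function.mem_support] at hk
            by_cases h : n ≤ k
            · exact ⟨k - n, by show k - n + n = k; omega⟩
            · rw [if_neg h] at hk
              exact absurd rfl hk
      _ = 2 * (1 / 2 : ℝ≥0∞) ^ n := by
          simp_rw [pow_add]
          rw [ENNReal.tsum_mul_right, ENNReal.tsum_geometric]
          congr 1
          rw [one_div, ENNReal.one_sub_inv_two, inv_inv]
  have h2 : Tendsto (fun n : ℕ => 2 * (1 / 2 : ℝ≥0∞) ^ n) atTop (𝓝 (2 * 0)) :=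
    ENNReal.Tendsto.const_mul (ENNReal.tendsto_pow_atTop_nhds_zero_of_lt_one (by norm_num))
      (Or.inr (by norm_num))
  rw [mul_zero] at h2
  exact tendsto_of_tendsto_of_tendsto_of_le_of_le tendsto_const_nhds h2 (fun n => zero_le) h1

theorem dimH_Yt_le {ρ R : ℝ} (hR : 1 < R) (hRρ : R < ρ) {s : ℝ≥0} (hs0 : 0 < s) {M : ℕ}
    (hM : ∑' b : {b : ℕ // b ∈ Ioi M ∧ 1 ≤ b},
      ENNReal.ofReal (((b : ℕ) : ℝ)⁻¹) ^ ((R + 1) * (s : ℝ)) ≤ 1 / 2) (K : ℕ) :
    dimH (Yt ρ M K) ≤ s := by
  classical
  have hs0' : (0 : ℝ) < s := by exact_mod_cast hs0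
  set P : List ℕ → ℝ := fun l => (l.map fun b : ℕ => (b : ℝ)⁻¹).prod with hP
  set γ : List ℕ → ℝ := fun l => P l ^ (R - 1) * 2 ^ EE ρ K l.length with hγ
  set t : ℕ → List ℕ → Set ℝ := fun n l => if n ≤ l.length ∧ (∀ b ∈ l, M < b) then
    phi (WL ρ K l) '' Icc 0 (min 1 (γ l)) else ∅ with ht
  have hP0 : ∀ l : List ℕ, (∀ b ∈ l, M < b) → 0 < P l := by
    intro l hl
    simp only [hP]
    apply List.prod_pos
    intro a ha
    obtain ⟨b, hb, rfl⟩ := List.mem_map.1 ha
    have : 0 < b := lt_of_le_of_lt (Nat.zero_le _) (hl b hb)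
    have : (0 : ℝ) < b := by exact_mod_cast this
    positivity
  refine dimH_le_of_covers hs0 t ?_ ?_
  · rintro n y ⟨b, u, rfl, h⟩
    have hb1 : ∀ k, 1 ≤ b k := fun k => by have := (h k).1; omega
    obtain ⟨k, hk, hgood⟩ := exists_good hR hRρ (K := K) hb1 n
    refine mem_iUnion.2 ⟨lst b k, ?_⟩
    rw [ht]
    simp only
    have hmem : ∀ a ∈ lst b k, M < a := fun a ha => by
      obtain ⟨i, rfl⟩ := lst_mem ha
      exact (h i).1
    rw [if_pos ⟨by rw [lst_length]; exact hk, hmem⟩]
    refine ⟨u k, ⟨(h k).2.1.1.le, le_min (h k).2.1.2.le ?_⟩, (eq_phi_WL (fun k => (h k).2.2) k).symm⟩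
    have hPk := hP0 _ hmem
    simp only [hγ, lst_length]
    have e1 : P (lst b k) = ∏ j ∈ Finset.range k, ((b j : ℝ))⁻¹ := lst_prod b k
    rw [← e1] at hgood
    have hb0 : (0 : ℝ) < b k := by exact_mod_cast hb1 k
    have h1 : u k ≤ (b k : ℝ)⁻¹ := by
      rw [(h k).2.2, phi_cons]
      have := phi_nonneg (w := List.replicate (mr ρ (K + k)) 1) (h (k + 1)).2.1.1.le
      exact inv_anti₀ hb0 (by linarith)
    refine h1.trans ?_
    have h2 : 0 < P (lst b k) ^ (-(R - 1)) * (1 / 2) ^ EE ρ K k :=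
      mul_pos (Real.rpow_pos_of_pos hPk _) (by positivity)
    refine (inv_anti₀ h2 hgood).trans (le_of_eq ?_)
    rw [mul_inv, Real.rpow_neg hPk.le, inv_inv, one_div, inv_pow, inv_inv]
  · apply tsum_list (fun b => if M < b then ENNReal.ofReal ((b : ℝ)⁻¹) ^ ((R + 1) * (s : ℝ)) else 0)
    · refine le_trans (le_of_eq ?_) hM
      have := tsum_subtype {b : ℕ | b ∈ Ioi M ∧ 1 ≤ b}
        (fun b : ℕ => ENNReal.ofReal ((b : ℝ)⁻¹) ^ ((R + 1) * (s : ℝ)))
      refine Eq.trans (tsum_congr fun b => ?_) this.symm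
      rw [Set.indicator_apply]
      by_cases hb : M < b
      · rw [if_pos hb, if_pos ⟨hb, by omega⟩]
      · rw [if_neg hb, if_neg fun h => hb h.1]
    · intro n l
      rw [ht]
      simp only
      by_cases hl : ∀ b ∈ l, M < b
      · by_cases hn : n ≤ l.length
        · rw [if_pos ⟨hn, hl⟩, if_pos hn]
          have hpos : Pos l := fun b hb => by have := hl b hb; omega
          have hPl := hP0 l hl
          have e1 : (l.map fun b => if M < b then ENNReal.ofReal ((b : ℝ)⁻¹) ^ ((R + 1) * (s : ℝ))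
              else 0) = l.map fun b : ℕ => ENNReal.ofReal ((b : ℝ)⁻¹) ^ ((R + 1) * (s : ℝ)) := by
            apply List.map_congr_left
            intro b hb
            rw [if_pos (hl b hb)]
          rw [e1, ← map_ofReal_prod l (by positivity), ENNReal.rpow_mul]
          apply ENNReal.rpow_le_rpow _ hs0'.le
          rw [ENNReal.ofReal_rpow_of_nonneg (show 0 ≤ (l.map fun b : ℕ => (b : ℝ)⁻¹).prod from hPl.le)
            (by linarith)]
          apply Metric.ediam_le
          rintro _ ⟨x, hx, rfl⟩ _ ⟨y, hy, rfl⟩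
          rw [edist_dist, Real.dist_eq]
          apply ENNReal.ofReal_le_ofReal
          rw [phi_sub (WL_pos ρ K l hpos) hx.1 hy.1]
          have h1 := D_WL ρ K l hpos hx.1 hy.1
          have h2 : |x - y| ≤ γ l := by
            have h3 := hx.2.trans (min_le_right _ _)
            have h4 := hy.2.trans (min_le_right _ _)
            rw [abs_le]; constructor <;> linarith [hx.1, hy.1]
          have hγ0 : 0 ≤ γ l := mul_nonneg (Real.rpow_nonneg hPl.le _) (by positivity)
          have d1 := D_pos (WL_pos ρ K l hpos) hx.1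
          have d2 := D_pos (WL_pos ρ K l hpos) hy.1
          calc |x - y| * (D (WL ρ K l) x * D (WL ρ K l) y) ≤
              γ l * (P l ^ 2 * (1 / 2) ^ EE ρ K l.length) :=
                mul_le_mul h2 h1 (by positivity) hγ0
            _ = P l ^ (R - 1) * P l ^ 2 * (2 ^ EE ρ K l.length * (1 / 2) ^ EE ρ K l.length) := by
                simp only [hγ]; ring
            _ = P l ^ (R + 1) := by
                rw [← mul_pow, show (2 : ℝ) * (1 / 2) = 1 by norm_num, one_pow, mul_one,
                  ← Real.rpow_two, ← Real.rpow_add hPl]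
                congr 1
                ring
        · rw [if_neg fun h => hn h.1, Metric.ediam_empty, ENNReal.zero_rpow_of_pos hs0']
          exact zero_le
      · rw [if_neg fun h => hl h.2, Metric.ediam_empty, ENNReal.zero_rpow_of_pos hs0']
        exact zero_le

/-! ### the structure of the asymptotic points -/

lemma pos_blk (ρ : ℝ) (k : ℕ) : Pos ((k + 1) :: List.replicate (mr ρ k) 1) :=
  pos_cons_rep (by omega) _

lemma rho_iter_mem {ρ : ℝ} {z : ℕ → ℝ} (hz : IsRho ρ z) (n k : ℕ) :
    gauss^[n] (z k) ∈ Ioo (0 : ℝ) 1 := by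
  induction n using Nat.strong_induction_on generalizing k with
  | _ n ih =>
    rcases Nat.lt_or_ge n (mr ρ k + 1) with h | h
    · have e1 := gauss_phi_mem (pos_blk ρ k) (hz (k + 1)).1 (n := n) (by simp; omega)
      rw [← (hz k).2] at e1
      rw [e1]
      exact phi_mem_Ioo (fun a ha => pos_blk ρ k a (List.mem_of_mem_drop ha)) (hz (k + 1)).1
    · obtain ⟨j, rfl⟩ := Nat.exists_eq_add_of_le' h
      have e1 := gauss_phi (pos_blk ρ k) (hz (k + 1)).1
      rw [← (hz k).2, List.length_cons, List.length_replicate] at e1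
      rw [Function.iterate_add_apply, e1]
      exact ih j (by omega) (k + 1)

/-- the positions of the large digits -/
noncomputable def PP (ρ : ℝ) (k : ℕ) : ℕ := ∑ j ∈ Finset.range k, (mr ρ j + 1)

lemma PP_succ (ρ : ℝ) (k : ℕ) : PP ρ (k + 1) = PP ρ k + (mr ρ k + 1) := Finset.sum_range_succ _ _

lemma le_PP (ρ : ℝ) (k : ℕ) : k ≤ PP ρ k := by
  induction k with
  | zero => exact Nat.zero_le _
  | succ k ih => rw [PP_succ]; omega

lemma iter_PP {ρ : ℝ} {z : ℕ → ℝ} (hz : IsRho ρ z) (k : ℕ) : gauss^[PP ρ k] (z 0) = z k := by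
  induction k with
  | zero => rfl
  | succ k ih =>
    have e1 := gauss_phi (pos_blk ρ k) (hz (k + 1)).1
    rw [← (hz k).2, List.length_cons, List.length_replicate] at e1
    rw [PP_succ, add_comm, Function.iterate_add_apply, ih, e1]

lemma dig_z {ρ : ℝ} {z : ℕ → ℝ} (hz : IsRho ρ z) (k i : ℕ) (hi : i < mr ρ k + 1) :
    dig (z 0) (PP ρ k + i) = ((k + 1) :: List.replicate (mr ρ k) 1)[i]'(by simp; omega) := by
  rw [← dig_iter, iter_PP hz]
  have := digit_phi (pos_blk ρ k) (hz (k + 1)).1 (n := i) (by simp; omega)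
  rw [← (hz k).2] at this
  unfold dig
  rw [this]
  rfl

theorem AS_sub {ρ : ℝ} {z : ℕ → ℝ} (hz : IsRho ρ z) {M : ℕ} (hM : 1 ≤ M) {y : ℝ}
    (hy : y ∈ AS (z 0)) (hir : Irrational y) : ∃ N K, gauss^[N] y ∈ Yt ρ M K := by
  have hzir : Irrational (z 0) := irrational_of_iter fun n => rho_iter_mem hz n 0
  have hy' : y ∈ Ioo (0 : ℝ) 1 := ⟨lt_of_le_of_ne hy.1.1 (Ne.symm hir.ne_zero), hy.1.2⟩
  obtain ⟨N, hN⟩ := digits_of_AS hzir (hz 0).1 hir hy' hy.2 M
  set K := max N M with hK
  refine ⟨PP ρ K, K, fun j => dig y (PP ρ (K + j)), fun j => gauss^[PP ρ (K + j)] y, rfl,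
    fun j => ⟨?_, iter_mem hir hy' _, ?_⟩⟩
  · have h1 := le_PP ρ (K + j)
    have h2 := hN (PP ρ (K + j)) (by omega)
    have h3 := dig_z hz (K + j) 0 (by omega)
    rw [add_zero, List.getElem_cons_zero] at h3
    show M < dig y (PP ρ (K + j))
    rcases h2 with h2 | h2
    · rw [← h2, h3]; omega
    · exact h2.2
  · have h1 := eq_phi_pre (irrational_iter hir (PP ρ (K + j))) (iter_mem hir hy' _)
      (mr ρ (K + j) + 1)
    have h2 : gauss^[mr ρ (K + j) + 1] (gauss^[PP ρ (K + j)] y) = gauss^[PP ρ (K + (j + 1))] y := by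
      rw [← Function.iterate_add_apply, ← add_assoc K j 1, PP_succ]
      congr 1
      ring_nf
    rw [h2] at h1
    have h3 : pre (gauss^[PP ρ (K + j)] y) (mr ρ (K + j) + 1) =
        dig y (PP ρ (K + j)) :: List.replicate (mr ρ (K + j)) 1 := by
      apply List.ext_getElem
      · rw [pre_length]; simp
      · intro i hi1 hi2
        rw [pre_getElem, dig_iter]
        rw [pre_length] at hi1
        cases i with
        | zero => rfl
        | succ i =>
          rw [List.getElem_cons_succ, List.getElem_replicate]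
          have h4 := dig_z hz (K + j) (i + 1) hi1
          rw [List.getElem_cons_succ, List.getElem_replicate] at h4
          have h5 := le_PP ρ (K + j)
          rcases hN (PP ρ (K + j) + (i + 1)) (by omega) with h6 | h6
          · rw [← h6, h4]
          · omega
    rw [h3] at h1
    exact h1

/-- **the dimension of the asymptotic set** -/
theorem dimH_AS_rho {ρ : ℝ} (hρ : 1 < ρ) {z : ℕ → ℝ} (hz : IsRho ρ z) :
    dimH (AS (z 0)) = ENNReal.ofReal (1 / (1 + ρ)) := by
  refine le_antisymm ?_ ?_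
  · have key : ∀ s : ℝ≥0, 1 / (1 + ρ) < s → dimH (AS (z 0)) ≤ s := by
      intro s hs
      have hs0 : (0 : ℝ) < s := lt_trans (by positivity) hs
      obtain ⟨R, hR1, hR2⟩ : ∃ R : ℝ, max 1 (1 / (s : ℝ) - 1) < R ∧ R < ρ := by
        apply exists_between
        apply max_lt hρ
        rw [div_lt_iff₀ (by positivity)] at hs
        rw [sub_lt_iff_lt_add, div_lt_iff₀ hs0]
        linarith
      have hR1' : 1 < R := lt_of_le_of_lt (le_max_left _ _) hR1
      have hRs : 1 < (R + 1) * s := by
        have := lt_of_le_of_lt (le_max_right _ _) hR1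
        rw [sub_lt_iff_lt_add, div_lt_iff₀ hs0] at this
        exact this
      obtain ⟨M, hM⟩ := exists_tail hRs
      have hM' := hM (Ioi (max M 1)) fun b hb => mem_Ioi.2 (lt_of_le_of_lt (le_max_left M 1) hb)
      refine AS_cover (fun _ => ⋃ K, Yt ρ (max M 1) K) (fun _ y hy => ?_) 0 (fun y hy hir => ?_) s
        fun N _ => ?_
      · obtain ⟨K, b, u, rfl, h⟩ := mem_iUnion.1 hy
        exact (h 0).2.1
      · obtain ⟨N, K, h⟩ := AS_sub hz (le_max_right M 1) hy hir
        exact ⟨N, Nat.zero_le _, mem_iUnion.2 ⟨K, h⟩⟩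
      · rw [dimH_iUnion]
        exact iSup_le fun K => dimH_Yt_le hR1' hR2 (by exact_mod_cast hs0) hM' K
    refine le_of_forall_gt_imp_ge_of_dense fun c hc => ?_
    rcases eq_or_ne c ∞ with h | h
    · rw [h]; exact le_top
    · lift c to ℝ≥0 using h
      apply key
      rw [ENNReal.ofReal_lt_coe_iff (by positivity)] at hc
      exact hc
  · refine le_of_forall_lt fun c hc => ?_
    obtain ⟨d, hd1, hd2⟩ := exists_between hc
    lift d to ℝ≥0 using (hd2.trans ENNReal.ofReal_lt_top).ne
    have hd0 : 0 < d := by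
      have : (0 : ℝ≥0∞) < d := lt_of_le_of_lt zero_le hd1
      exact_mod_cast this
    refine hd1.trans_le (le_dimH_rho hρ hz hd0 ?_)
    have : (d : ℝ) < 1 / (1 + ρ) := by
      rw [← ENNReal.ofReal_coe_nnreal, ENNReal.ofReal_lt_ofReal_iff (by positivity)] at hd2
      exact hd2
    rw [lt_div_iff₀ (by positivity)] at this
    exact this

end Q261.Asy
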