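import Pool.Agent.Q261.AS.Big2
import Pool.Agent.Q261.AS.Rho3

set_option autoImplicit false

/-!
# All values of the dimension of the asymptotic sets of the Gauss map
-/

namespace Q261.Asy

open Set Filter Topology MeasureTheory Q261.CFD
open scoped ENNReal NNReal

lemma exists_zero : ∃ x ∈ Ico (0 : ℝ) 1, dimH (AS x) = 0 := by
  have p1 : Pos [1] := fun a ha => by rw [List.mem_singleton.1 ha]
  obtain ⟨X, -, hX, hXr⟩ := exists_levels (fun _ _ => [1]) (fun _ _ => p1)
    fun _ _ => List.cons_ne_nil _ _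
  set z : ℕ → ℝ := fun k => X k fun _ => 0 with hz
  have hz1 : ∀ k, z k ∈ Ioo (0 : ℝ) 1 := fun k => hX _ _
  have hz2 : ∀ k, z k = phi [1] (z (k + 1)) := fun k => hXr _ _
  have hit : ∀ n, gauss^[n] (z 0) = z n := by
    intro n
    induction n with
    | zero => rfl
    | succ n ih =>
      rw [Function.iterate_succ_apply', ih]
      have := gauss_phi p1 (hz1 (n + 1))
      rw [← hz2 n] at this
      exact this
  have hir : Irrational (z 0) := irrational_of_iter fun n => by rw [hit]; exact hz1 n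
  have hdig : ∀ n, dig (z 0) n = 1 := by
    intro n
    have h1 := dig_iter (z 0) n 0
    rw [add_zero, hit] at h1
    rw [← h1]
    have := digit_phi p1 (hz1 (n + 1)) (n := 0) (by simp)
    rw [← hz2 n] at this
    unfold dig
    rw [this]
    rfl
  refine ⟨z 0, Ioo_subset_Ico_self (hz1 0), le_antisymm ?_ zero_le⟩
  have := AS_cover (x := z 0) (fun _ => {y : ℝ | y ∈ Ioo (0 : ℝ) 1 ∧ Irrational y ∧
    ∀ n, dig y n = 1}) (fun _ y hy => hy.1) 0 (fun y hy hiy => ?_) 0 fun N _ => ?_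
  · exact this.trans (by simp)
  · have hy' : y ∈ Ioo (0 : ℝ) 1 := ⟨lt_of_le_of_ne hy.1.1 (Ne.symm hiy.ne_zero), hy.1.2⟩
    obtain ⟨N, hN⟩ := digits_of_AS hir (hz1 0) hiy hy' hy.2 1
    refine ⟨N, Nat.zero_le _, iter_mem hiy hy' N, irrational_iter hiy N, fun n => ?_⟩
    rw [dig_iter]
    rcases hN (N + n) (by omega) with h | h
    · rw [← h, hdig]
    · rw [hdig] at h; omega
  · have hsub : ({y : ℝ | y ∈ Ioo (0 : ℝ) 1 ∧ Irrational y ∧ ∀ n, dig y n = 1}).Subsingleton := by
      intro y hy z hz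
      exact eq_of_dig hy.2.1 hy.1 hz.2.1 hz.1 fun n => by rw [hy.2.2 n, hz.2.2 n]
    rw [hsub.dimH_zero]

/-- the image of the dimension function -/
theorem image_dimH : (fun x : ℝ => dimH (AS x)) '' Ico (0 : ℝ) 1 = Icc (0 : ℝ≥0∞) (1 / 2) := by
  apply Subset.antisymm
  · rintro _ ⟨x, hx, rfl⟩
    exact ⟨zero_le, dimH_AS_le hx⟩
  · rintro a ⟨-, ha⟩
    rcases eq_or_ne a 0 with h0 | h0
    · obtain ⟨x, hx, h⟩ := exists_zero
      exact ⟨x, hx, by rw [h0]; exact h⟩
    rcases eq_or_lt_of_le ha with h1 | h1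
    · have hne : {x : ℝ | x ∈ Ico (0 : ℝ) 1 ∧ dimH (AS x) = 1 / 2}.Nonempty := by
        rw [nonempty_iff_ne_empty]
        intro h
        have h2 := dimH_half
        rw [h, dimH_empty] at h2
        exact zero_ne_one h2
      obtain ⟨x, hx, h⟩ := hne
      exact ⟨x, hx, by rw [h1]; exact h⟩
    · lift a to ℝ≥0 using (h1.trans_le (by norm_num : (1 / 2 : ℝ≥0∞) ≤ 1)).ne_top
      have ha0 : (0 : ℝ) < a := by
        have : a ≠ 0 := by exact_mod_cast h0
        exact_mod_cast pos_iff_ne_zero.2 this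
      have ha1 : (a : ℝ) < 1 / 2 := by
        have : a < 1 / 2 := by
          rw [← ENNReal.coe_lt_coe, ENNReal.coe_div (by norm_num)]
          exact h1
        exact_mod_cast this
      have hρ : 1 < 1 / (a : ℝ) - 1 := by
        rw [lt_sub_iff_add_lt, lt_div_iff₀ ha0]
        linarith
      obtain ⟨z, hz⟩ := exists_rho (1 / (a : ℝ) - 1)
      refine ⟨z 0, Ioo_subset_Ico_self (hz 0).1, ?_⟩
      show dimH (AS (z 0)) = a
      rw [dimH_AS_rho hρ hz]
      have : 1 / (1 + (1 / (a : ℝ) - 1)) = a := by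
        rw [add_sub_cancel, one_div_one_div]
      rw [this, ENNReal.ofReal_coe_nnreal]

end Q261.Asy
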