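import Pool.Agent.Q261.AS.Basic

set_option autoImplicit false

/-!
# Lower bounds for the dimension of asymptotic sets of the Gauss map
-/

namespace Q261.Asy

open Set Filter Topology MeasureTheory Q261.CFD
open scoped ENNReal NNReal

/-- two points built from the same fixed blocks and digits tending to infinity are asymptotic -/
lemma asym_of_blocks {x y : ℕ → ℝ} {b c : ℕ → ℕ} {w : ℕ → List ℕ} (hw : ∀ k, Pos (w k))
    (hx : ∀ k, x k ∈ Ioo (0 : ℝ) 1) (hy : ∀ k, y k ∈ Ioo (0 : ℝ) 1) (hb1 : ∀ k, 1 ≤ b k)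
    (hc1 : ∀ k, 1 ≤ c k) (hxr : ∀ k, x k = phi (b k :: w k) (x (k + 1)))
    (hyr : ∀ k, y k = phi (c k :: w k) (y (k + 1))) (hb : Tendsto b atTop atTop)
    (hc : Tendsto c atTop atTop) :
    Tendsto (fun n : ℕ => |gauss^[n] (x 0) - gauss^[n] (y 0)|) atTop (𝓝 0) := by
  rw [Metric.tendsto_atTop]
  intro ε hε
  obtain ⟨m, hm⟩ := exists_nat_gt (1 / ε)
  obtain ⟨K, hK⟩ : ∃ K, ∀ k ≥ K, m ≤ b k ∧ m ≤ c k := by
    have := (hb.eventually_ge_atTop m).and (hc.eventually_ge_atTop m)
    exact eventually_atTop.1 this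
  have small : ∀ (z : ℕ → ℝ) (d : ℕ → ℕ), (∀ k, z k ∈ Ioo (0 : ℝ) 1) → (∀ k, 1 ≤ d k) →
      (∀ k, z k = phi (d k :: w k) (z (k + 1))) → ∀ k, m ≤ d k → z k < ε := by
    intro z d hz hd hzr k hk
    rw [hzr k, phi_cons]
    have h1 := phi_nonneg (w := w k) (hz (k + 1)).1.le
    have h2 : (m : ℝ) ≤ d k := by exact_mod_cast hk
    have h3 : 0 < 1 / ε := by positivity
    rw [inv_lt_comm₀ (by linarith) hε, ← one_div]
    linarith
  have h0 : ∀ k ≥ K, |x k - y k| < ε := by
    intro k hk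
    have h1 := small x b hx hb1 hxr k (hK k hk).1
    have h2 := small y c hy hc1 hyr k (hK k hk).2
    rw [abs_lt]
    constructor <;> linarith [(hx k).1, (hy k).1]
  have key : ∀ n k, K ≤ k → |gauss^[n] (x k) - gauss^[n] (y k)| < ε := by
    intro n
    induction n using Nat.strong_induction_on with
    | _ n ih =>
      intro k hk
      have pb : Pos (b k :: w k) := fun a ha => by
        rcases List.mem_cons.1 ha with h | h
        · rw [h]; exact hb1 k
        · exact hw k a h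
      have pc : Pos (c k :: w k) := fun a ha => by
        rcases List.mem_cons.1 ha with h | h
        · rw [h]; exact hc1 k
        · exact hw k a h
      rcases Nat.eq_zero_or_pos n with hn | hn
      · subst hn
        exact h0 k hk
      · rcases Nat.lt_or_ge (w k).length n with h1 | h1
        · obtain ⟨j, rfl⟩ := Nat.exists_eq_add_of_le (show (w k).length + 1 ≤ n by omega)
          have e1 : gauss^[(w k).length + 1 + j] (x k) = gauss^[j] (x (k + 1)) := by
            rw [add_comm, Function.iterate_add_apply]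
            congr 1
            have := gauss_phi pb (hx (k + 1))
            rw [← hxr k, List.length_cons] at this
            exact this
          have e2 : gauss^[(w k).length + 1 + j] (y k) = gauss^[j] (y (k + 1)) := by
            rw [add_comm, Function.iterate_add_apply]
            congr 1
            have := gauss_phi pc (hy (k + 1))
            rw [← hyr k, List.length_cons] at this
            exact this
          rw [e1, e2]
          exact ih j (by omega) (k + 1) (by omega)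
        · obtain ⟨j, rfl⟩ := Nat.exists_eq_add_of_le' (show 1 ≤ n by omega)
          have e1 := gauss_phi_mem pb (hx (k + 1)) (n := j + 1) (by simp; omega)
          have e2 := gauss_phi_mem pc (hy (k + 1)) (n := j + 1) (by simp; omega)
          rw [← hxr k, List.drop_succ_cons] at e1
          rw [← hyr k, List.drop_succ_cons] at e2
          rw [e1, e2]
          have pw : Pos ((w k).drop j) := fun a ha => hw k a (List.mem_of_mem_drop ha)
          exact lt_of_le_of_lt (phi_lip pw (hx (k + 1)).1.le (hy (k + 1)).1.le) (h0 (k + 1) (by omega))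
  have hP : ∀ k, ∃ P, gauss^[P] (x 0) = x k ∧ gauss^[P] (y 0) = y k := by
    intro k
    induction k with
    | zero => exact ⟨0, rfl, rfl⟩
    | succ k ih =>
      obtain ⟨P, h1, h2⟩ := ih
      have pb : Pos (b k :: w k) := fun a ha => by
        rcases List.mem_cons.1 ha with h | h
        · rw [h]; exact hb1 k
        · exact hw k a h
      have pc : Pos (c k :: w k) := fun a ha => by
        rcases List.mem_cons.1 ha with h | h
        · rw [h]; exact hc1 k
        · exact hw k a h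
      have e1 := gauss_phi pb (hx (k + 1))
      have e2 := gauss_phi pc (hy (k + 1))
      rw [← hxr k, List.length_cons] at e1
      rw [← hyr k, List.length_cons] at e2
      refine ⟨(w k).length + 1 + P, ?_, ?_⟩
      · rw [Function.iterate_add_apply, h1, e1]
      · rw [Function.iterate_add_apply, h2, e2]
  obtain ⟨P, h1, h2⟩ := hP K
  refine ⟨P, fun n hn => ?_⟩
  obtain ⟨j, rfl⟩ := Nat.exists_eq_add_of_le hn
  rw [Real.dist_eq, sub_zero, abs_abs, add_comm P j, Function.iterate_add_apply,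
    Function.iterate_add_apply, h1, h2]
  exact key j K le_rfl

/-- codings with level dependent blocks -/
theorem exists_levels (B : ℕ → ℕ → List ℕ) (hB : ∀ k v, Pos (B k v)) (hB' : ∀ k v, B k v ≠ []) :
    ∃ X : ℕ → (ℕ → ℕ) → ℝ, (∀ k, Measurable (X k)) ∧ (∀ k ω, X k ω ∈ Ioo (0 : ℝ) 1) ∧
      ∀ k ω, X k ω = phi (B k (ω k)) (X (k + 1) ω) := by
  obtain ⟨π, h1, h2, h3⟩ := exists_code (V := ℕ × ℕ) (fun v => B v.1 v.2) (fun v => hB _ _)
    fun v => hB' _ _
  refine ⟨fun k ω => π fun n => (k + n, ω (k + n)), fun k => h1.comp ?_, fun k ω => h2 _,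
    fun k ω => ?_⟩
  · apply measurable_pi_lambda
    intro n
    exact measurable_const.prodMk (measurable_pi_apply _)
  · simp only
    rw [h3]
    simp only [add_zero]
    congr 2
    funext n
    rw [show k + (n + 1) = k + 1 + n by ring]

lemma levels_dist {B : ℕ → ℕ → List ℕ} (hB : ∀ k v, Pos (B k v)) {X : ℕ → (ℕ → ℕ) → ℝ}
    (hX : ∀ k ω, X k ω ∈ Ioo (0 : ℝ) 1) (hr : ∀ k ω, X k ω = phi (B k (ω k)) (X (k + 1) ω))
    {ω ω' : ℕ → ℕ} {ε : ℕ → ℝ} (hε : ∀ k, 0 < ε k)
    (hD : ∀ k, ∀ u ∈ Icc (0 : ℝ) 1, ε k ≤ D (B k (ω k)) u) (n : ℕ) (h : ∀ i < n, ω i = ω' i) :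
    (∏ i ∈ Finset.range n, ε i ^ 2) * |X n ω - X n ω'| ≤ |X 0 ω - X 0 ω'| := by
  induction n with
  | zero => simp
  | succ n ih =>
    refine le_trans ?_ (ih fun i hi => h i (by omega))
    rw [Finset.prod_range_succ, mul_assoc]
    apply mul_le_mul_of_nonneg_left _ (Finset.prod_nonneg fun i _ => sq_nonneg _)
    rw [hr n ω, hr n ω', ← h n (by omega), phi_sub (hB _ _) (hX _ _).1.le (hX _ _).1.le, mul_comm]
    apply mul_le_mul_of_nonneg_left _ (abs_nonneg _)
    rw [sq]
    have h1 := hD n _ (Ioo_subset_Icc_self (hX (n + 1) ω))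
    have h2 := hD n _ (Ioo_subset_Icc_self (hX (n + 1) ω'))
    exact mul_le_mul h1 h2 (hε n).le ((hε n).le.trans h1)

/-- tails with the same first digit are close -/
lemma same_first {w : List ℕ} (hw : Pos w) (h0 : w ≠ []) {r r' : ℝ} (hr : r ∈ Icc (0 : ℝ) 1)
    (hr' : r' ∈ Icc (0 : ℝ) 1) : |phi w r - phi w r'| ≤ 1 / 2 := by
  cases w with
  | nil => exact absurd rfl h0
  | cons a w =>
    have ha : (1 : ℝ) ≤ a := by exact_mod_cast hw.head
    have h1 := phi_mem hw.tail hr
    have h2 := phi_mem hw.tail hr'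
    rw [phi_cons, phi_cons]
    have key : ∀ u v : ℝ, u ∈ Icc (0 : ℝ) 1 → v ∈ Icc (0 : ℝ) 1 →
        ((a : ℝ) + u)⁻¹ - ((a : ℝ) + v)⁻¹ ≤ 1 / 2 := by
      intro u v hu hv
      have h3 : ((a : ℝ) + u)⁻¹ ≤ (a : ℝ)⁻¹ := inv_anti₀ (by linarith) (by linarith [hu.1])
      have h4 : ((a : ℝ) + 1)⁻¹ ≤ ((a : ℝ) + v)⁻¹ := inv_anti₀ (by linarith [hv.1]) (by linarith [hv.2])
      have h5 : (a : ℝ)⁻¹ - ((a : ℝ) + 1)⁻¹ = 1 / (a * (a + 1)) := by
        field_simp
        ring
      have h6 : 1 / ((a : ℝ) * (a + 1)) ≤ 1 / 2 :=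
        one_div_le_one_div_of_le (by norm_num) (by nlinarith)
      linarith
    rw [abs_le]
    constructor
    · linarith [key _ _ h2 h1]
    · exact key _ _ h1 h2

/-- **lower bound for the dimension of asymptotic sets** -/
theorem le_dimH_AS {x : ℕ → ℝ} {b : ℕ → ℕ} {w : ℕ → List ℕ} (hx : ∀ k, x k ∈ Ioo (0 : ℝ) 1)
    (hxr : ∀ k, x k = phi (b k :: w k) (x (k + 1))) (hb1 : ∀ k, 1 ≤ b k)
    (hb : Tendsto b atTop atTop) (hw : ∀ k, Pos (w k)) (hw0 : ∀ k, w k ≠ []) {e t : ℕ → ℕ}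
    (he : ∀ k, ∀ u ∈ Icc (0 : ℝ) 1, (1 / 2 : ℝ) ^ e k ≤ D (w k) u) (ht : Tendsto t atTop atTop)
    (ht1 : ∀ k, 1 ≤ t k) {s : ℝ≥0} (hs : 0 < s) (hs1 : s ≤ 1) {c : ℝ}
    (H : ∀ n, (s : ℝ) * (2 * ∑ i ∈ Finset.range n, ((e i : ℝ) + t i + 1) + t n) ≤
      ∑ i ∈ Finset.range n, (t i : ℝ) + c) : (s : ℝ≥0∞) ≤ dimH (AS (x 0)) := by
  have hs' : (0 : ℝ) < s := by exact_mod_cast hs
  have hs1' : (s : ℝ) ≤ 1 := by exact_mod_cast hs1
  set B : ℕ → ℕ → List ℕ := fun k v => (2 ^ t k + v) :: w k with hBdef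
  have hB : ∀ k v, Pos (B k v) := by
    intro k v a ha
    rcases List.mem_cons.1 ha with h | h
    · rw [h]; have := Nat.one_le_two_pow (n := t k); omega
    · exact hw k a h
  obtain ⟨X, hXm, hX, hXr⟩ := exists_levels B hB fun k v => List.cons_ne_nil _ _
  have h2n : ∀ n : ℕ, (0 : ℝ) < 2 ^ n := fun n => by positivity
  have hmem : ∀ ω : ℕ → ℕ, X 0 ω ∈ AS (x 0) := by
    intro ω
    refine ⟨⟨(hX 0 ω).1.le, (hX 0 ω).2⟩, ?_⟩
    refine asym_of_blocks (y := fun k => X k ω) hw hx (fun k => hX k ω) hb1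
      (c := fun k => 2 ^ t k + ω k) (fun k => ?_) hxr (fun k => hXr k ω) hb ?_
    · have := Nat.one_le_two_pow (n := t k); omega
    · apply tendsto_atTop_mono (f := fun k => t k) _ ht
      intro k
      have := (Nat.lt_two_pow_self (n := t k)).le
      omega
  have hT0 : ∀ n, 0 < 2 ^ t n := fun n => Nat.two_pow_pos _
  refine le_dimH_of_levels (fun n => 2 ^ t n) (fun n _ => 1 / 2 ^ t n) (fun n v => by positivity)
    (fun n => ?_) (π := fun ω => X 0 fun n => (ω n : ℕ)) ?_ hs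
    (C := (2 : ℝ) ^ (1 + c + 3 * (s : ℝ))) (Real.rpow_pos_of_pos two_pos _) (fun ω => ?_)
    (fun n ω ω' hag hlt => ?_) (AS (x 0)) fun ω => hmem _
  · rw [Finset.sum_const, Finset.card_univ, Fintype.card_fin, nsmul_eq_mul]
    push_cast
    field_simp
  · apply (hXm 0).comp
    apply measurable_pi_lambda
    intro n
    exact (measurable_of_countable (fun v : Fin (2 ^ t n) => (v : ℕ))).comp (measurable_pi_apply n)
  · apply squeeze_zero (g := fun n : ℕ => (1 / 2 : ℝ) ^ n)
      (fun n => Finset.prod_nonneg fun i _ => by positivity) (fun n => ?_)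
      (tendsto_pow_atTop_nhds_zero_of_lt_one (by norm_num) (by norm_num))
    calc ∏ i ∈ Finset.range n, (1 / 2 ^ t i : ℝ) ≤ ∏ _i ∈ Finset.range n, (1 / 2 : ℝ) := by
          apply Finset.prod_le_prod fun i _ => by positivity
          intro i _
          apply one_div_le_one_div_of_le (by norm_num)
          calc (2 : ℝ) = 2 ^ 1 := (pow_one _).symm
            _ ≤ 2 ^ t i := pow_le_pow_right₀ (by norm_num) (ht1 i)
      _ = (1 / 2 : ℝ) ^ n := by simp
  · -- the main inequality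
    set a : ℕ → ℕ := fun k => (ω k : ℕ) with ha
    set a' : ℕ → ℕ := fun k => (ω' k : ℕ) with ha'
    have hag' : ∀ i < n, a i = a' i := fun i hi => by simp only [ha, ha', hag i hi]
    have hlt' : a n < a' n := hlt
    have haT : ∀ k, a k < 2 ^ t k := fun k => (ω k).2
    have haT' : ∀ k, a' k < 2 ^ t k := fun k => (ω' k).2
    obtain ⟨m, hm⟩ : ∃ m, a' n = a n + m := ⟨a' n - a n, by omega⟩
    have hm1 : 1 ≤ m := by omega
    have hmT : m < 2 ^ t n := by have := haT' n; omega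
    have hm1' : (1 : ℝ) ≤ m := by exact_mod_cast hm1
    have hmT' : (m : ℝ) < 2 ^ t n := by exact_mod_cast hmT
    -- the sum
    have hsum : ∑ v ∈ Finset.Icc (ω n) (ω' n), (1 / 2 ^ t n : ℝ) = (m + 1) / 2 ^ t n := by
      rw [Finset.sum_const, Fin.card_Icc, nsmul_eq_mul]
      have : ((ω' n : ℕ) + 1 - (ω n : ℕ)) = m + 1 := by
        have h1 : (ω' n : ℕ) = a' n := rfl
        have h2 : (ω n : ℕ) = a n := rfl
        omega
      rw [this]
      push_cast
      ring
    -- the distance at level n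
    have hdn : (m : ℝ) / (8 * (2 ^ t n) ^ 2) ≤ |X n a - X n a'| := by
      rw [hXr n a, hXr n a']
      simp only [hBdef]
      rw [phi_cons, phi_cons]
      have m1 := Ioo_subset_Icc_self (hX (n + 1) a)
      have m2 := Ioo_subset_Icc_self (hX (n + 1) a')
      have u1 := phi_mem (hw n) m1
      have u2 := phi_mem (hw n) m2
      have u3 := same_first (hw n) (hw0 n) m1 m2
      set u := phi (w n) (X (n + 1) a)
      set u' := phi (w n) (X (n + 1) a')
      have c1 : ((2 ^ t n + a n : ℕ) : ℝ) + u ≤ 2 * 2 ^ t n := by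
        have : ((a n : ℝ) + 1) ≤ 2 ^ t n := by exact_mod_cast haT n
        push_cast
        linarith [u1.2]
      have c2 : ((2 ^ t n + a' n : ℕ) : ℝ) + u' ≤ 2 * 2 ^ t n := by
        have : ((a' n : ℝ) + 1) ≤ 2 ^ t n := by exact_mod_cast haT' n
        push_cast
        linarith [u2.2]
      have c3 : 0 < ((2 ^ t n + a n : ℕ) : ℝ) + u := by
        push_cast
        have := h2n (t n)
        have : (0 : ℝ) ≤ a n := Nat.cast_nonneg _
        linarith [u1.1]
      have c4 : 0 < ((2 ^ t n + a' n : ℕ) : ℝ) + u' := by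
        push_cast
        have := h2n (t n)
        have : (0 : ℝ) ≤ a' n := Nat.cast_nonneg _
        linarith [u2.1]
      have c5 : (((2 ^ t n + a n : ℕ) : ℝ) + u)⁻¹ - (((2 ^ t n + a' n : ℕ) : ℝ) + u')⁻¹ =
          (m + (u' - u)) / ((((2 ^ t n + a n : ℕ) : ℝ) + u) * (((2 ^ t n + a' n : ℕ) : ℝ) + u')) := by
        rw [inv_sub_inv c3.ne' c4.ne']
        congr 1
        rw [hm]
        push_cast
        ring
      rw [c5]
      refine le_trans ?_ (le_abs_self _)
      rw [div_le_div_iff₀ (by positivity) (mul_pos c3 c4)]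
      have c6 : (m : ℝ) / 2 ≤ m + (u' - u) := by
        have := (abs_le.1 u3).2
        linarith
      have c7 : (((2 ^ t n + a n : ℕ) : ℝ) + u) * (((2 ^ t n + a' n : ℕ) : ℝ) + u') ≤
          (2 * 2 ^ t n) * (2 * 2 ^ t n) := mul_le_mul c1 c2 c4.le (by positivity)
      calc (m : ℝ) * ((((2 ^ t n + a n : ℕ) : ℝ) + u) * (((2 ^ t n + a' n : ℕ) : ℝ) + u')) ≤
            m * ((2 * 2 ^ t n) * (2 * 2 ^ t n)) := mul_le_mul_of_nonneg_left c7 (by positivity)
        _ = (m / 2) * (8 * (2 ^ t n) ^ 2) := by ring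
        _ ≤ (m + (u' - u)) * (8 * (2 ^ t n) ^ 2) := mul_le_mul_of_nonneg_right c6 (by positivity)
    -- the distance at level zero
    have hd0 := levels_dist hB hX hXr (ω := a) (ω' := a') (ε := fun k => (1 / 2 : ℝ) ^ (e k + t k + 1))
      (fun k => by positivity) (fun k u hu => by
        simp only [hBdef]
        rw [D_cons]
        have h1 := phi_mem (hw k) hu
        have h2 := he k u hu
        have h3 : (1 / 2 : ℝ) ^ (t k + 1) ≤ (((2 ^ t k + a k : ℕ) : ℝ) + phi (w k) u)⁻¹ := by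
          rw [one_div, inv_pow]
          apply inv_anti₀
          · push_cast
            have := h2n (t k)
            have : (0 : ℝ) ≤ a k := Nat.cast_nonneg _
            linarith [h1.1]
          · have : ((a k : ℝ) + 1) ≤ 2 ^ t k := by exact_mod_cast haT k
            push_cast
            rw [pow_succ]
            linarith [h1.2]
        calc (1 / 2 : ℝ) ^ (e k + t k + 1) = (1 / 2) ^ (t k + 1) * (1 / 2) ^ e k := by
              rw [← pow_add]; congr 1; ring
          _ ≤ _ := mul_le_mul h3 h2 (by positivity) (le_trans (by positivity) h3)) n hag'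
    set Se : ℝ := ∑ i ∈ Finset.range n, ((e i : ℝ) + t i + 1) with hSe
    set St : ℝ := ∑ i ∈ Finset.range n, (t i : ℝ) with hSt
    have e1 : ∏ i ∈ Finset.range n, ((1 / 2 : ℝ) ^ (e i + t i + 1)) ^ 2 = (2 : ℝ) ^ (-(2 * Se)) := by
      rw [hSe, Finset.mul_sum, ← Finset.sum_neg_distrib, Real.rpow_sum_of_pos two_pos]
      refine Finset.prod_congr rfl fun i _ => ?_
      rw [one_div, inv_pow, inv_pow, Real.rpow_neg two_pos.le, ← pow_mul]
      congr 1
      rw [← Real.rpow_natCast]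
      congr 1
      push_cast
      ring
    have e2 : ∏ i ∈ Finset.range n, (1 / 2 ^ t i : ℝ) = (2 : ℝ) ^ (-St) := by
      rw [hSt, ← Finset.sum_neg_distrib, Real.rpow_sum_of_pos two_pos]
      refine Finset.prod_congr rfl fun i _ => ?_
      rw [one_div, Real.rpow_neg two_pos.le, Real.rpow_natCast]
    set q : ℝ := m / 2 ^ t n with hq
    have hT := h2n (t n)
    have hq0 : 0 < q := by positivity
    have hq1 : q ≤ 1 := by rw [hq, div_le_one hT]; exact hmT'.le
    have hqs : q ≤ q ^ (s : ℝ) := by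
      calc q = q ^ (1 : ℝ) := (Real.rpow_one q).symm
        _ ≤ q ^ (s : ℝ) := Real.rpow_le_rpow_of_exponent_ge hq0 hq1 hs1'
    have h3 : (2 : ℝ) ^ (-(2 * Se + t n + 3)) * q ≤ |X 0 a - X 0 a'| := by
      refine le_trans ?_ hd0
      rw [e1]
      have h4 : (2 : ℝ) ^ (-(2 * Se + t n + 3)) = (2 : ℝ) ^ (-(2 * Se)) * (1 / (8 * 2 ^ t n)) := by
        rw [show -(2 * Se + t n + 3) = -(2 * Se) + -((t n : ℝ) + 3) by ring, Real.rpow_add two_pos]
        congr 1
        rw [Real.rpow_neg two_pos.le, one_div]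
        congr 1
        rw [Real.rpow_add two_pos, Real.rpow_natCast]
        norm_num
        ring
      rw [h4, mul_assoc]
      apply mul_le_mul_of_nonneg_left _ (Real.rpow_nonneg two_pos.le _)
      refine le_trans (le_of_eq ?_) hdn
      rw [hq]
      field_simp
    have h4 : (2 : ℝ) ^ (-(s * (2 * Se + t n + 3))) * q ^ (s : ℝ) ≤ |X 0 a - X 0 a'| ^ (s : ℝ) := by
      have h5 := Real.rpow_le_rpow (by positivity) h3 hs'.le
      rw [Real.mul_rpow (Real.rpow_nonneg two_pos.le _) hq0.le, ← Real.rpow_mul two_pos.le] at h5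
      rwa [show -(s * (2 * Se + t n + 3)) = -(2 * Se + t n + 3) * (s : ℝ) by ring]
    have h5 : (2 : ℝ) * 2 ^ (-St) ≤ (2 : ℝ) ^ (1 + c + 3 * (s : ℝ)) *
        (2 : ℝ) ^ (-(s * (2 * Se + t n + 3))) := by
      rw [← Real.rpow_add two_pos]
      have : (2 : ℝ) * 2 ^ (-St) = 2 ^ (1 + -St) := by
        rw [Real.rpow_add two_pos, Real.rpow_one]
      rw [this]
      apply Real.rpow_le_rpow_of_exponent_le (by norm_num)
      have := H n
      linarith
    show (∏ i ∈ Finset.range n, (1 / 2 ^ t i : ℝ)) * ∑ v ∈ Finset.Icc (ω n) (ω' n), (1 / 2 ^ t n : ℝ) ≤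
      (2 : ℝ) ^ (1 + c + 3 * (s : ℝ)) * |X 0 a - X 0 a'| ^ (s : ℝ)
    rw [hsum, e2]
    have h6 : ((m : ℝ) + 1) / 2 ^ t n ≤ 2 * q := by
      rw [hq, mul_div_assoc']
      exact div_le_div_of_nonneg_right (by linarith) hT.le
    have hSt0 : (0 : ℝ) ≤ 2 ^ (-St) := Real.rpow_nonneg two_pos.le _
    calc (2 : ℝ) ^ (-St) * ((m + 1) / 2 ^ t n) ≤ 2 ^ (-St) * (2 * q ^ (s : ℝ)) := by
          apply mul_le_mul_of_nonneg_left _ hSt0
          linarith
      _ = (2 * 2 ^ (-St)) * q ^ (s : ℝ) := by ring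
      _ ≤ ((2 : ℝ) ^ (1 + c + 3 * (s : ℝ)) * (2 : ℝ) ^ (-(s * (2 * Se + t n + 3)))) * q ^ (s : ℝ) :=
          mul_le_mul_of_nonneg_right h5 (Real.rpow_nonneg hq0.le _)
      _ = (2 : ℝ) ^ (1 + c + 3 * (s : ℝ)) *
          ((2 : ℝ) ^ (-(s * (2 * Se + t n + 3))) * q ^ (s : ℝ)) := by ring
      _ ≤ _ := mul_le_mul_of_nonneg_left h4 (Real.rpow_nonneg two_pos.le _)

end Q261.Asy
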