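import Pool.Agent.Q261.AS.Half

set_option autoImplicit false

/-!
# Points whose asymptotic set has dimension `1 / (1 + ρ)`
-/

namespace Q261.Asy

open Set Filter Topology MeasureTheory Q261.CFD
open scoped ENNReal NNReal

/-- the lengths of the blocks of ones -/
noncomputable def mr (ρ : ℝ) (k : ℕ) : ℕ := ⌈ρ ^ k⌉₊

lemma mr_ge (ρ : ℝ) (k : ℕ) : ρ ^ k ≤ mr ρ k := Nat.le_ceil _

lemma mr_le {ρ : ℝ} (hρ : 0 ≤ ρ) (k : ℕ) : (mr ρ k : ℝ) ≤ ρ ^ k + 1 :=
  (Nat.ceil_lt_add_one (by positivity)).le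

lemma mr_pos {ρ : ℝ} (hρ : 0 < ρ) (k : ℕ) : 1 ≤ mr ρ k := Nat.one_le_ceil_iff.2 (by positivity)

/-- the block structure of the point -/
def IsRho (ρ : ℝ) (z : ℕ → ℝ) : Prop :=
  ∀ k, z k ∈ Ioo (0 : ℝ) 1 ∧ z k = phi ((k + 1) :: List.replicate (mr ρ k) 1) (z (k + 1))

lemma pos_cons_rep {a : ℕ} (ha : 1 ≤ a) (j : ℕ) : Pos (a :: List.replicate j 1) := by
  intro b hb
  rcases List.mem_cons.1 hb with h | h
  · rw [h]; exact ha
  · rw [List.eq_of_mem_replicate h]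

lemma pos_rep' (j : ℕ) : Pos (List.replicate j 1) := fun a ha => by
  rw [List.eq_of_mem_replicate ha]

lemma exists_rho (ρ : ℝ) : ∃ z, IsRho ρ z := by
  obtain ⟨X, -, hX, hXr⟩ := exists_levels (fun k _ => (k + 1) :: List.replicate (mr ρ k) 1)
    (fun k _ => pos_cons_rep (by omega) _) fun k _ => List.cons_ne_nil _ _
  exact ⟨fun k => X k fun _ => 0, fun k => ⟨hX _ _, hXr _ _⟩⟩

lemma D_rep_ge' (j : ℕ) {x : ℝ} (hx : x ∈ Icc (0 : ℝ) 1) :
    (1 / 2 : ℝ) ^ j ≤ D (List.replicate j 1) x := by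
  have := D_ge_pow (m := 1) (pos_rep' j) (fun a ha => by rw [List.eq_of_mem_replicate ha]) hx
  rw [List.length_replicate] at this
  refine le_trans (le_of_eq ?_) this
  norm_num

/-- lower bound -/
theorem le_dimH_rho {ρ : ℝ} (hρ : 1 < ρ) {z : ℕ → ℝ} (hz : IsRho ρ z) {s : ℝ≥0} (hs0 : 0 < s)
    (hs : (s : ℝ) * (1 + ρ) < 1) : (s : ℝ≥0∞) ≤ dimH (AS (z 0)) := by
  have hs0' : (0 : ℝ) < s := by exact_mod_cast hs0
  obtain ⟨R, hR1, hR2⟩ : ∃ R : ℝ, ρ < R ∧ R < 1 / s - 1 := by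
    apply exists_between
    rw [lt_sub_iff_add_lt, lt_div_iff₀ hs0']
    linarith
  have hsR : (s : ℝ) * (1 + R) < 1 := by
    rw [lt_sub_iff_add_lt, lt_div_iff₀ hs0'] at hR2
    linarith
  have hR0 : 1 < R := hρ.trans hR1
  have hs2 : 2 * (s : ℝ) < 1 := by nlinarith
  set δ : ℝ := (1 - 2 * s) / (R - 1) - s with hδ
  have hδ0 : 0 < δ := by
    rw [hδ, sub_pos, lt_div_iff₀ (by linarith)]
    nlinarith
  obtain ⟨c, hc⟩ : ∃ c : ℝ, ∀ n : ℕ, 0 ≤ (∑ i ∈ Finset.range n, (mr R i : ℝ) -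
      (s : ℝ) * (2 * ∑ i ∈ Finset.range n, ((mr ρ i : ℝ) + mr R i + 1) + mr R n)) + c := by
    apply exists_const
    have t1 : Tendsto (fun n : ℕ => ((1 - 2 * (s : ℝ)) / (R - 1) + s) * (1 / R) ^ n +
        (2 * s / (ρ - 1) * (ρ / R) ^ n + 4 * s * ((n : ℝ) ^ 1 / R ^ n))) atTop
        (𝓝 (((1 - 2 * (s : ℝ)) / (R - 1) + s) * 0 + (2 * s / (ρ - 1) * 0 + 4 * s * 0))) := by
      refine Tendsto.add (Tendsto.const_mul _ ?_) (Tendsto.add (Tendsto.const_mul _ ?_)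
        (Tendsto.const_mul _ ?_))
      · exact tendsto_pow_atTop_nhds_zero_of_lt_one (by positivity)
          ((div_lt_one (by linarith)).2 hR0)
      · exact tendsto_pow_atTop_nhds_zero_of_lt_one (by positivity)
          ((div_lt_one (by linarith)).2 hR1)
      · exact tendsto_pow_const_div_const_pow_of_one_lt 1 hR0
    simp only [mul_zero, add_zero] at t1
    filter_upwards [t1.eventually_lt_const hδ0] with n hn
    have hRn : 0 < R ^ n := pow_pos (by linarith) n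
    have s1 : (R ^ n - 1) / (R - 1) ≤ ∑ i ∈ Finset.range n, (mr R i : ℝ) := by
      rw [← geom_sum_eq hR0.ne']
      exact Finset.sum_le_sum fun i _ => mr_ge R i
    have s2 : ∑ i ∈ Finset.range n, (mr ρ i : ℝ) ≤ (ρ ^ n - 1) / (ρ - 1) + n := by
      rw [← geom_sum_eq hρ.ne']
      calc ∑ i ∈ Finset.range n, (mr ρ i : ℝ) ≤ ∑ i ∈ Finset.range n, (ρ ^ i + 1) :=
            Finset.sum_le_sum fun i _ => mr_le (by linarith) i
        _ = _ := by rw [Finset.sum_add_distrib]; simp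
    have s3 := mr_le (ρ := R) (by linarith) n
    rw [Finset.sum_add_distrib, Finset.sum_add_distrib, Finset.sum_const, Finset.card_range,
      nsmul_eq_mul, mul_one]
    set SR := ∑ i ∈ Finset.range n, (mr R i : ℝ)
    set Sρ := ∑ i ∈ Finset.range n, (mr ρ i : ℝ)
    have h1 : (1 - 2 * (s : ℝ)) * ((R ^ n - 1) / (R - 1)) ≤ (1 - 2 * s) * SR :=
      mul_le_mul_of_nonneg_left s1 (by linarith)
    have h2 : (s : ℝ) * Sρ ≤ s * ((ρ ^ n - 1) / (ρ - 1) + n) :=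
      mul_le_mul_of_nonneg_left s2 hs0'.le
    have h3 : (s : ℝ) * mr R n ≤ s * (R ^ n + 1) := mul_le_mul_of_nonneg_left s3 hs0'.le
    have h4 : (((1 - 2 * (s : ℝ)) / (R - 1) + s) * (1 / R) ^ n +
        (2 * s / (ρ - 1) * (ρ / R) ^ n + 4 * s * ((n : ℝ) ^ 1 / R ^ n))) * R ^ n ≤ δ * R ^ n :=
      mul_le_mul_of_nonneg_right hn.le hRn.le
    have h5 : (((1 - 2 * (s : ℝ)) / (R - 1) + s) * (1 / R) ^ n +
        (2 * s / (ρ - 1) * (ρ / R) ^ n + 4 * s * ((n : ℝ) ^ 1 / R ^ n))) * R ^ n =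
        ((1 - 2 * (s : ℝ)) / (R - 1) + s) + 2 * s / (ρ - 1) * ρ ^ n + 4 * s * n := by
      rw [div_pow, div_pow, one_pow, pow_one]
      field_simp
      ring
    rw [h5] at h4
    have h6 : (1 - 2 * (s : ℝ)) * ((R ^ n - 1) / (R - 1)) =
        (1 - 2 * s) / (R - 1) * R ^ n - (1 - 2 * s) / (R - 1) := by
      have : R - 1 ≠ 0 := by linarith
      field_simp
    have h7 : (s : ℝ) * ((ρ ^ n - 1) / (ρ - 1) + n) = s / (ρ - 1) * ρ ^ n - s / (ρ - 1) + s * n := by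
      have : ρ - 1 ≠ 0 := by linarith
      field_simp
    rw [h6] at h1
    rw [h7] at h2
    have h8 : 0 ≤ (s : ℝ) / (ρ - 1) := div_nonneg hs0'.le (by linarith)
    have h9 : δ * R ^ n = (1 - 2 * s) / (R - 1) * R ^ n - s * R ^ n := by rw [hδ]; ring
    have h10 : 2 * (s : ℝ) / (ρ - 1) * ρ ^ n = 2 * (s / (ρ - 1) * ρ ^ n) := by ring
    nlinarith
  refine le_dimH_AS (x := z) (b := fun k => k + 1) (w := fun k => List.replicate (mr ρ k) 1)
    (fun k => (hz k).1) (fun k => (hz k).2) (fun k => by omega) (tendsto_add_atTop_nat 1)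
    (fun k => pos_rep' _) (fun k => ?_) (e := fun k => mr ρ k) (t := fun k => mr R k)
    (fun k u hu => D_rep_ge' _ hu) ?_ (fun k => mr_pos (by linarith) k) hs0 ?_ (c := c)
    (fun n => ?_)
  · intro h
    have h1 := mr_pos (ρ := ρ) (by linarith) k
    rw [List.replicate_eq_nil_iff] at h
    omega
  · have h1 : Tendsto (fun n : ℕ => R ^ n) atTop atTop := tendsto_pow_atTop_atTop_of_one_lt hR0
    exact tendsto_nat_ceil_atTop.comp h1
  · have : (s : ℝ) ≤ 1 := by linarith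
    exact_mod_cast this
  · have := hc n
    linarith

end Q261.Asy
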