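import Pool.Agent.Q261.AS.Rho

set_option autoImplicit false

/-!
# Upper bound for the dimension of the asymptotic sets with sparse large digits
-/

namespace Q261.Asy

open Set Filter Topology MeasureTheory Q261.CFD
open scoped ENNReal NNReal

/-- the word built from the large digits `l`, starting at the block `K` -/
noncomputable def WL (ρ : ℝ) : ℕ → List ℕ → List ℕ
  | _, [] => []
  | K, b :: l => (b :: List.replicate (mr ρ K) 1) ++ WL ρ (K + 1) l

/-- the total length of the blocks of ones, diminished -/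
noncomputable def EE (ρ : ℝ) (K k : ℕ) : ℕ := ∑ j ∈ Finset.range k, (mr ρ (K + j) - 1)

lemma EE_succ (ρ : ℝ) (K k : ℕ) : EE ρ K (k + 1) = (mr ρ K - 1) + EE ρ (K + 1) k := by
  unfold EE
  rw [Finset.sum_range_succ', add_comm]
  congr 1
  exact Finset.sum_congr rfl fun j _ => by rw [show K + (j + 1) = K + 1 + j by ring]

lemma WL_pos (ρ : ℝ) (K : ℕ) (l : List ℕ) (hl : Pos l) : Pos (WL ρ K l) := by
  induction l generalizing K with
  | nil => exact fun a ha => by simp [WL] at ha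
  | cons b l ih => exact (pos_cons_rep hl.head _).append (ih (K + 1) hl.tail)

lemma D_WL (ρ : ℝ) (K : ℕ) (l : List ℕ) (hl : Pos l) {x y : ℝ} (hx : 0 ≤ x) (hy : 0 ≤ y) :
    D (WL ρ K l) x * D (WL ρ K l) y ≤
      (l.map fun b : ℕ => (b : ℝ)⁻¹).prod ^ 2 * (1 / 2) ^ EE ρ K l.length := by
  induction l generalizing K with
  | nil => simp [WL, EE]
  | cons b l ih =>
    have hb : (1 : ℝ) ≤ b := by exact_mod_cast hl.head
    have h1 := ih (K + 1) hl.tail
    have hp := WL_pos ρ (K + 1) l hl.tail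
    set P := (l.map fun b : ℕ => (b : ℝ)⁻¹).prod
    have e1 : WL ρ K (b :: l) = (b :: List.replicate (mr ρ K) 1) ++ WL ρ (K + 1) l := rfl
    rw [e1, D_append, D_append, List.map_cons, List.prod_cons, List.length_cons, EE_succ]
    have key : ∀ u : ℝ, 0 ≤ u → 0 < D (b :: List.replicate (mr ρ K) 1) u ∧
        D (b :: List.replicate (mr ρ K) 1) u ≤ (b : ℝ)⁻¹ * (1 / 2) ^ (mr ρ K / 2) := by
      intro u hu
      refine ⟨D_pos (pos_cons_rep hl.head _) hu, ?_⟩
      rw [D_cons]
      have h2 := phi_nonneg (w := List.replicate (mr ρ K) 1) hu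
      have h3 := D_le_half (pos_rep' (mr ρ K)) hu
      rw [List.length_replicate] at h3
      exact mul_le_mul (inv_anti₀ (by linarith) (by linarith)) h3 (D_pos (pos_rep' _) hu).le
        (by positivity)
    have k1 := key (phi (WL ρ (K + 1) l) x) (phi_nonneg hx)
    have k2 := key (phi (WL ρ (K + 1) l) y) (phi_nonneg hy)
    have d1 := D_pos hp hx
    have d2 := D_pos hp hy
    set A := D (b :: List.replicate (mr ρ K) 1) (phi (WL ρ (K + 1) l) x)
    set A' := D (b :: List.replicate (mr ρ K) 1) (phi (WL ρ (K + 1) l) y)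
    have h4 : A * A' ≤ (b : ℝ)⁻¹ ^ 2 * (1 / 2) ^ (mr ρ K - 1) := by
      calc A * A' ≤ ((b : ℝ)⁻¹ * (1 / 2) ^ (mr ρ K / 2)) * ((b : ℝ)⁻¹ * (1 / 2) ^ (mr ρ K / 2)) :=
            mul_le_mul k1.2 k2.2 k2.1.le (by positivity)
        _ = (b : ℝ)⁻¹ ^ 2 * (1 / 2) ^ (mr ρ K / 2 + mr ρ K / 2) := by rw [pow_add]; ring
        _ ≤ _ := by
            apply mul_le_mul_of_nonneg_left _ (by positivity)
            exact pow_le_pow_of_le_one (by norm_num) (by norm_num) (by omega)
    calc A * D (WL ρ (K + 1) l) x * (A' * D (WL ρ (K + 1) l) y) =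
          (A * A') * (D (WL ρ (K + 1) l) x * D (WL ρ (K + 1) l) y) := by ring
      _ ≤ ((b : ℝ)⁻¹ ^ 2 * (1 / 2) ^ (mr ρ K - 1)) * (P ^ 2 * (1 / 2) ^ EE ρ (K + 1) l.length) :=
          mul_le_mul h4 h1 (by positivity) (by positivity)
      _ = _ := by rw [pow_add]; ring

/-- the first large digits as a list -/
def lst : (ℕ → ℕ) → ℕ → List ℕ
  | _, 0 => []
  | b, k + 1 => b 0 :: lst (fun i => b (i + 1)) k

lemma lst_length (b : ℕ → ℕ) (k : ℕ) : (lst b k).length = k := by
  induction k generalizing b with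
  | zero => rfl
  | succ k ih => rw [lst, List.length_cons, ih]

lemma lst_mem {b : ℕ → ℕ} {k a : ℕ} (h : a ∈ lst b k) : ∃ i, a = b i := by
  induction k generalizing b with
  | zero => simp [lst] at h
  | succ k ih =>
    rw [lst] at h
    rcases List.mem_cons.1 h with h | h
    · exact ⟨0, h⟩
    · obtain ⟨i, hi⟩ := ih h
      exact ⟨i + 1, hi⟩

lemma lst_prod (b : ℕ → ℕ) (k : ℕ) : ((lst b k).map fun b : ℕ => (b : ℝ)⁻¹).prod =
    ∏ j ∈ Finset.range k, ((b j : ℝ))⁻¹ := by
  induction k generalizing b with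
  | zero => simp [lst]
  | succ k ih => rw [lst, List.map_cons, List.prod_cons, ih, Finset.prod_range_succ', mul_comm]

/-- the tails of the asymptotic points -/
def Yt (ρ : ℝ) (M K : ℕ) : Set ℝ :=
  {y | ∃ (b : ℕ → ℕ) (u : ℕ → ℝ), u 0 = y ∧ ∀ k, M < b k ∧ u k ∈ Ioo (0 : ℝ) 1 ∧
    u k = phi (b k :: List.replicate (mr ρ (K + k)) 1) (u (k + 1))}

lemma eq_phi_WL {ρ : ℝ} {K : ℕ} {b : ℕ → ℕ} {u : ℕ → ℝ}
    (h : ∀ k, u k = phi (b k :: List.replicate (mr ρ (K + k)) 1) (u (k + 1))) (k : ℕ) :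
    u 0 = phi (WL ρ K (lst b k)) (u k) := by
  induction k generalizing K b u with
  | zero => rfl
  | succ k ih =>
    have h1 := ih (K := K + 1) (b := fun i => b (i + 1)) (u := fun i => u (i + 1)) fun k => by
      rw [h (k + 1)]
      rw [show K + (k + 1) = K + 1 + k by ring]
    rw [lst, WL, phi_append, ← h1]
    exact h 0

/-- infinitely many large digits are very large -/
lemma exists_good {ρ R : ℝ} (hR : 1 < R) (hRρ : R < ρ) {K : ℕ} {b : ℕ → ℕ} (hb : ∀ k, 1 ≤ b k)
    (n : ℕ) : ∃ k ≥ n, (∏ j ∈ Finset.range k, ((b j : ℝ))⁻¹) ^ (-(R - 1)) * (1 / 2) ^ EE ρ K k ≤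
      b k := by
  by_contra! hcon
  have hb' : ∀ k, (1 : ℝ) ≤ b k := fun k => by exact_mod_cast hb k
  set L : ℕ → ℝ := fun k => ∑ j ∈ Finset.range k, Real.log (b j) with hL
  have hL0 : ∀ k, 0 ≤ L k := fun k => Finset.sum_nonneg fun j _ => Real.log_nonneg (hb' j)
  have hlog2 : 0 < Real.log 2 := Real.log_pos (by norm_num)
  have hprod : ∀ k, 0 < ∏ j ∈ Finset.range k, ((b j : ℝ))⁻¹ := fun k =>
    Finset.prod_pos fun j _ => inv_pos.2 (by linarith [hb' j])
  have hlogprod : ∀ k, Real.log (∏ j ∈ Finset.range k, ((b j : ℝ))⁻¹) = -L k := by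
    intro k
    rw [Real.log_prod fun j _ => (inv_pos.2 (by linarith [hb' j] : (0 : ℝ) < b j)).ne', hL,
      ← Finset.sum_neg_distrib]
    exact Finset.sum_congr rfl fun j _ => Real.log_inv _
  have hstep : ∀ k ≥ n, L (k + 1) ≤ R * L k - EE ρ K k * Real.log 2 := by
    intro k hk
    have h1 := hcon k hk
    have h2 := Real.log_lt_log (by linarith [hb' k]) h1
    rw [Real.log_mul (Real.rpow_pos_of_pos (hprod k) _).ne' (by positivity),
      Real.log_rpow (hprod k), hlogprod, Real.log_pow, one_div, Real.log_inv] at h2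
    have h3 : L (k + 1) = L k + Real.log (b k) := by rw [hL]; simp [Finset.sum_range_succ]
    rw [h3]
    linarith
  have hgrow : ∀ j, L (n + j) ≤ R ^ j * L n := by
    intro j
    induction j with
    | zero => simp
    | succ j ih =>
      have h1 := hstep (n + j) (by omega)
      have h2 : (0 : ℝ) ≤ EE ρ K (n + j) * Real.log 2 := by positivity
      rw [← add_assoc]
      calc L (n + j + 1) ≤ R * L (n + j) := by linarith
        _ ≤ R * (R ^ j * L n) := mul_le_mul_of_nonneg_left ih (by linarith)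
        _ = _ := by rw [pow_succ]; ring
  have hEE : ∀ j, ρ ^ j - 1 ≤ EE ρ K (j + 1) := by
    intro j
    have h1 : mr ρ (K + j) - 1 ≤ EE ρ K (j + 1) := by
      unfold EE
      rw [Finset.sum_range_succ]
      omega
    have h2 := mr_pos (ρ := ρ) (by linarith) (K + j)
    have h3 : (mr ρ (K + j) : ℝ) - 1 ≤ EE ρ K (j + 1) := by
      have : mr ρ (K + j) ≤ EE ρ K (j + 1) + 1 := by omega
      have h4 : (mr ρ (K + j) : ℝ) ≤ EE ρ K (j + 1) + 1 := by exact_mod_cast this
      linarith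
    have h4 := mr_ge ρ (K + j)
    have h5 : ρ ^ j ≤ ρ ^ (K + j) := pow_le_pow_right₀ (by linarith) (by omega)
    linarith
  -- contradiction
  have hfin : ∀ j, n ≤ j → (ρ ^ j - 1) * Real.log 2 ≤ R * (R * R ^ j * L n) := by
    intro j hj
    obtain ⟨i, rfl⟩ := Nat.exists_eq_add_of_le hj
    have h1 := hstep (n + i + 1) (by omega)
    have h2 := hL0 (n + i + 1 + 1)
    have h3 := hgrow (i + 1)
    rw [← add_assoc] at h3
    have h4 := mul_le_mul_of_nonneg_right (hEE (n + i)) hlog2.le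
    have h5 : R ^ (i + 1) * L n ≤ R * R ^ (n + i) * L n := by
      apply mul_le_mul_of_nonneg_right _ (hL0 n)
      rw [pow_succ, mul_comm]
      exact mul_le_mul_of_nonneg_left (pow_le_pow_right₀ hR.le (by omega)) (by linarith)
    have h6 : R * L (n + i + 1) ≤ R * (R * R ^ (n + i) * L n) :=
      mul_le_mul_of_nonneg_left (h3.trans h5) (by linarith)
    linarith
  have ht : Tendsto (fun j : ℕ => (ρ / R) ^ j) atTop atTop :=
    tendsto_pow_atTop_atTop_of_one_lt ((one_lt_div (by linarith)).2 hRρ)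
  obtain ⟨j, hj1, hj2⟩ := ((ht.eventually_gt_atTop ((R * R * L n) / Real.log 2 + 1)).and
    (eventually_ge_atTop n)).exists
  have h1 := hfin j hj2
  have hRj : 0 < R ^ j := pow_pos (by linarith) j
  have hRj1 : 1 ≤ R ^ j := one_le_pow₀ hR.le
  have h2 : ((R * R * L n) / Real.log 2 + 1) * R ^ j < ρ ^ j := by
    rw [div_pow, lt_div_iff₀ hRj] at hj1
    exact hj1
  have h3 : (((R * R * L n) / Real.log 2 + 1) * R ^ j) * Real.log 2 < ρ ^ j * Real.log 2 :=
    mul_lt_mul_of_pos_right h2 hlog2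
  have h4 : (((R * R * L n) / Real.log 2 + 1) * R ^ j) * Real.log 2 =
      R * R * L n * R ^ j + R ^ j * Real.log 2 := by
    field_simp
  have h5 : Real.log 2 ≤ R ^ j * Real.log 2 := le_mul_of_one_le_left hlog2.le hRj1
  nlinarith

end Q261.Asy
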